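import Pool.Agent.N693.P21.R3
import Pool.Agent.N970.P225.R5b

/-!
# The parity of the number of vectors of norm `n`, `3 ∣ n`: linear algebra
-/

set_option autoImplicit false

namespace Pool.Agent.N693.P21.R3

open Finset Pool.Agent.N855.P15
open Pool.Agent.N970.P225 (lkey dv_surj card_two)

/-- the condition at the primes other than three implies the condition at three -/
theorem cnd_away {n : ℕ} (hn : Squarefree n) (h3 : n % 4 = 3) (h5 : 3 ∣ n)
    (κ : PP n → ZMod 2) (hκ : ∑ p, κ p = 0) (f : ℕ → ℤ) (hf : ∀ p : PP n, f p = sg (κ p))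
    {d : ℕ} (hd : d ∣ n)
    (h : ∀ p ∈ n.primeFactors, p ≠ 3 →
      jacobiSym (if p ∣ d then ((n / d : ℕ) : ℤ) else (d : ℤ)) p = f p) : Cnd n f d := by
  obtain ⟨x, rfl⟩ := dv_surj hn hd
  rw [cnd_iff hn κ f hf]
  have hp5 : 3 ∈ n.primeFactors := Nat.mem_primeFactors.2 ⟨Nat.prime_three, h5, hn.ne_zero⟩
  have h1 : ∀ p : PP n, p ≠ ⟨3, hp5⟩ → LL n x p = κ p := by
    intro p hp
    apply sg_inj
    rw [← lkey hn, ← hf p]
    exact h p p.2 fun h6 => hp (Subtype.ext h6)
  funext p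
  by_cases hp : p = ⟨3, hp5⟩
  · have h2 := LL_sum hn h3 x
    rw [← hκ, ← Finset.add_sum_erase _ _ (mem_univ p), ← Finset.add_sum_erase _ κ (mem_univ p),
      Finset.sum_congr rfl (g := κ)] at h2
    · exact add_right_cancel h2
    · intro q hq
      exact h1 q fun h6 => (Finset.mem_erase.1 hq).1 (h6.trans hp.symm)
  · exact h1 p hp

theorem jac12 {n p : ℕ} (h4 : n % 4 = 3) (hp : p.Prime) (hpn : p ∣ n) (hp3 : p ≠ 3) {x : ℕ}
    (hx : ¬ p ∣ x) :
    (jacobiSym (-(2 * 6 * (x : ℤ))) p = 1 ↔ jacobiSym (x : ℤ) p = jacobiSym (-3) p) := by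
  have h2 : jacobiSym ((2 : ℤ) ^ 2) p = 1 := by
    apply jacobiSym.sq_one'
    have h3 : ¬ p ∣ 2 := Pool.Agent.N877.TF.not_dvd_two h4 hp hpn
    have : IsCoprime (2 : ℤ) (p : ℤ) := by
      rw [isCoprime_comm]
      exact (Prime.coprime_iff_not_dvd (Nat.prime_iff_prime_int.1 hp)).2
        (fun h => h3 (by exact_mod_cast h))
    exact Int.isCoprime_iff_gcd_eq_one.1 this
  have e : -(2 * 6 * (x : ℤ)) = (-3 * x) * 2 ^ 2 := by ring
  rw [e, jacobiSym.mul_left, h2, mul_one, jacobiSym.mul_left]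
  have g1 : (-3 : ℤ).gcd p = 1 := by
    change Nat.gcd 3 p = 1
    exact (Nat.coprime_primes Nat.prime_three hp).2 (Ne.symm hp3)
  have g2 : (x : ℤ).gcd p = 1 := by
    rw [Int.gcd_natCast_natCast]
    exact ((Nat.Prime.coprime_iff_not_dvd hp).2 hx).symm
  rcases jacobiSym.eq_one_or_neg_one g1 with k1 | k1 <;>
    rcases jacobiSym.eq_one_or_neg_one g2 with k2 | k2 <;> rw [k1, k2] <;> norm_num

/-- the parity of the number of ambiguous forms -/
theorem ak_odd {n : ℕ} (hn : Squarefree n) (h4 : n % 4 = 3) (h5 : 3 ∣ n) :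
    Odd (AK n 6).card ↔ Pool.Agent.N969.P15.Qc n := by
  classical
  have hp5 : 3 ∈ n.primeFactors := Nat.mem_primeFactors.2 ⟨Nat.prime_three, h5, hn.ne_zero⟩
  have : Nonempty (PP n) := ⟨⟨3, hp5⟩⟩
  let P5 : PP n := ⟨3, hp5⟩
  let κ : PP n → ZMod 2 := fun p => if p = P5 then ∑ q ∈ univ.erase P5, sy (-3) (q : ℕ)
    else sy (-3) (p : ℕ)
  let f : ℕ → ℤ := fun p => if h : p ∈ n.primeFactors then sg (κ ⟨p, h⟩) else 0
  have hf : ∀ p : PP n, f p = sg (κ p) := by
    intro p
    show (if h : (p : ℕ) ∈ n.primeFactors then sg (κ ⟨p, h⟩) else 0) = sg (κ p)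
    rw [dif_pos p.2]
  have hf' : ∀ p ∈ n.primeFactors, p ≠ 3 → f p = jacobiSym (-3) p := by
    intro p hp hp5'
    have h1 := hf ⟨p, hp⟩
    simp only at h1
    rw [h1]
    show sg (if (⟨p, hp⟩ : PP n) = P5 then _ else sy (-3) p) = _
    rw [if_neg (fun h => hp5' (congrArg Subtype.val h))]
    apply sg_sy
    change Nat.gcd 3 p = 1
    exact (Nat.coprime_primes Nat.prime_three (Nat.prime_of_mem_primeFactors hp)).2 (Ne.symm hp5')
  have hκ0 : ∑ p, κ p = 0 := by
    rw [← Finset.add_sum_erase _ _ (mem_univ P5)]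
    have h1 : κ P5 = ∑ q ∈ univ.erase P5, sy (-3) (q : ℕ) := if_pos rfl
    have h2 : ∑ q ∈ univ.erase P5, κ q = ∑ q ∈ univ.erase P5, sy (-3) (q : ℕ) := by
      refine Finset.sum_congr rfl fun q hq => ?_
      exact if_neg (Finset.mem_erase.1 hq).1
    rw [h1, h2]
    exact add_self2 _
  have hcard := lin (LL n) (LL_one n) (LL_sum hn h4) κ hκ0
  rw [dv_bij hn κ f hf, ← Qj_iff hn, ← Qc_iff hn.ne_zero, card_two hn h4 f] at hcard
  rw [← hcard]
  have hAK : AK n 6 = n.divisors.filter fun d => Cnd n f d ∧ d * d < n := by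
    unfold AK
    apply filter_congr
    intro r hr
    rw [and_comm (a := Cnd n f r)]
    refine and_congr_right fun _ => ?_
    obtain ⟨E, hE⟩ := Nat.dvd_of_mem_divisors hr
    have hrn : r ∣ n := Nat.dvd_of_mem_divisors hr
    have hr0 : 0 < r := Nat.pos_of_ne_zero fun h0 => hn.ne_zero (by rw [hE, h0, zero_mul])
    have hE0 : E ≠ 0 := fun h0 => hn.ne_zero (by rw [hE, h0, mul_zero])
    have hE' : n / r = E := Nat.div_eq_of_eq_mul_right hr0 hE
    rw [hE']
    have hdE : ∀ p ∈ n.primeFactors, (p ∣ r ∧ ¬ p ∣ E) ∨ (¬ p ∣ r ∧ p ∣ E) := by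
      intro p hp
      have hpp := Nat.prime_of_mem_primeFactors hp
      have hpn := Nat.dvd_of_mem_primeFactors hp
      by_cases h1 : p ∣ r
      · left
        refine ⟨h1, fun h2 => ?_⟩
        have h7 : p * p ∣ n := by
          rw [hE]
          exact mul_dvd_mul h1 h2
        exact hpp.one_lt.ne' (Nat.isUnit_iff.1 (hn p h7))
      · right
        refine ⟨h1, ?_⟩
        rw [hE] at hpn
        exact ((Nat.Prime.dvd_mul hpp).1 hpn).resolve_left h1
    constructor
    · rintro ⟨a1, a2⟩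
      refine cnd_away hn h4 h5 κ hκ0 f hf hrn fun p hp hp5' => ?_
      have hpp := Nat.prime_of_mem_primeFactors hp
      have hpn := Nat.dvd_of_mem_primeFactors hp
      rw [hE', hf' p hp hp5']
      rcases hdE p hp with ⟨b1, b2⟩ | ⟨b1, b2⟩
      · rw [if_pos b1]
        exact (jac12 h4 hpp hpn hp5' b2).1 (a1 p (Nat.mem_primeFactors.2 ⟨hpp, b1, hr0.ne'⟩) hp5')
      · rw [if_neg b1]
        exact (jac12 h4 hpp hpn hp5' b1).1 (a2 p (Nat.mem_primeFactors.2 ⟨hpp, b2, hE0⟩) hp5')
    · intro hc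
      constructor
      · intro p hp hp5'
        have hpp := Nat.prime_of_mem_primeFactors hp
        have b1 := Nat.dvd_of_mem_primeFactors hp
        have hpn : p ∣ n := b1.trans ⟨E, hE⟩
        have hp' : p ∈ n.primeFactors := Nat.mem_primeFactors.2 ⟨hpp, hpn, hn.ne_zero⟩
        have b2 : ¬ p ∣ E := by
          rcases hdE p hp' with h | h
          · exact h.2
          · exact absurd b1 h.1
        have := hc p hp'
        rw [if_pos b1, hE', hf' p hp' hp5'] at this
        exact (jac12 h4 hpp hpn hp5' b2).2 this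
      · intro p hp hp5'
        have hpp := Nat.prime_of_mem_primeFactors hp
        have b2 := Nat.dvd_of_mem_primeFactors hp
        have hpn : p ∣ n := b2.trans ⟨r, by rw [hE, mul_comm]⟩
        have hp' : p ∈ n.primeFactors := Nat.mem_primeFactors.2 ⟨hpp, hpn, hn.ne_zero⟩
        have b1 : ¬ p ∣ r := by
          rcases hdE p hp' with h | h
          · exact absurd b2 h.2
          · exact h.1
        have := hc p hp'
        rw [if_neg b1, hf' p hp' hp5'] at this
        exact (jac12 h4 hpp hpn hp5' b1).2 this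
  rw [hAK, Nat.odd_iff]
  omega

open Pool.Agent.N877.TF Pool.Agent.N877.P21 in
/-- the number of vectors of norm `n` and its parity for `3 ∣ n` -/
theorem t_R3' : ∀ n : ℕ, Squarefree n → n % 4 = 3 → 3 ∣ n → n ≠ 3 →
    ∃ g : ℤ, rr n = 2 ^ n.primeFactors.card * g ∧ (Odd g ↔ Pool.Agent.N969.P15.Qc n) := by
  intro n hsq h4 h5 hn3
  obtain ⟨m, hm⟩ := h5
  have hodd : Odd n := Nat.odd_iff.2 (by omega)
  have h5m : ¬ 3 ∣ m := by
    rintro ⟨k, rfl⟩
    have : 3 * 3 ∣ n := ⟨k, by rw [hm]; ring⟩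
    exact absurd (Nat.isUnit_iff.1 (hsq 3 this)) (by norm_num)
  have hcop : IsCoprime S21.d (m : ℤ) := by
    rw [d21]
    have : Nat.Coprime 6 m := by
      rw [show 6 = 2 * 3 by norm_num]
      refine Nat.Coprime.mul_left ?_ ?_
      · exact (Nat.Prime.coprime_iff_not_dvd Nat.prime_two).2 (by omega)
      · exact (Nat.Prime.coprime_iff_not_dvd (by norm_num)).2 h5m
    exact_mod_cast Nat.isCoprime_iff_coprime.2 this
  have hc : n.primeFactors.card = n.primeFactors.card - 1 + 1 := by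
    have : 0 < n.primeFactors.card := Finset.card_pos.2 ⟨3, three_mem hm hsq⟩
    omega
  refine ⟨3 * ((((Rd n).filter fun g => Gk n 6 g).card : ℕ) : ℤ), ?_, ?_⟩
  · have h := card_vec S21 pos21 tors21 (by norm_num) (by rw [d21]; norm_num)
      (by rw [d21]; norm_num) hm hsq hodd hn3 hcop (mem_vec' n) (fun _ _ u _ => even21 u)
    rw [d21] at h
    have h' : (2 : ℤ) * (vec n).card = 2 * (6 * 2 ^ (n.primeFactors.card - 1) *
        ((Rd n).filter fun g => Gk n 6 g).card) := by
      have : ((2 * (vec n).card : ℕ) : ℤ) = ((12 * 2 ^ (n.primeFactors.card - 1) *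
        ((Rd n).filter fun g => Gk n 6 g).card : ℕ) : ℤ) := by rw [h]
      push_cast at this
      rw [this]; ring
    have h2 := mul_left_cancel₀ two_ne_zero h'
    rw [hc, rr, h2, pow_succ]
    ring
  · rw [← ak_odd hsq h4 ⟨m, hm⟩, ← card_amb hsq h4, ← card_parity hodd]
    constructor
    · intro h
      have := (Int.odd_mul.1 h).2
      exact_mod_cast this
    · intro h
      exact Int.odd_mul.2 ⟨by decide, by exact_mod_cast h⟩

open Pool.Agent.N877.P21 in
/-- **R3** -/
theorem t_R3 : Pool.Agent.N877.P21.S_R3 := by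
  intro n hsq h4 h3
  by_cases hn3 : n = 3
  · subst hn3
    have hpf : (3 : ℕ).primeFactors.card = 1 := by
      rw [Nat.Prime.primeFactors Nat.prime_three, Finset.card_singleton]
    refine ⟨1, ?_, ?_⟩
    · rw [hpf]
      have : (vec ((3 : ℕ) : ℤ)).card = 2 := by decide +kernel
      rw [rr, this]
      norm_num
    · refine ⟨fun _ => ?_, fun _ => by decide⟩
      intro b c hbc _ _
      rcases (Nat.dvd_prime Nat.prime_three).1 ⟨c, hbc.symm⟩ with h | h
      · exact Or.inl h
      · right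
        subst h
        omega
  · exact t_R3' n hsq h4 h3 hn3

end Pool.Agent.N693.P21.R3
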