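import Pool.Agent.N693.P21.T3
import Pool.Agent.N877.P24.AA
import Pool.Agent.N877.TF.Amb
import Pool.Agent.N855.P15.AA5

/-!
# (R) for the ternary form of `X_0(21)`: the number of vectors and its parity, `n ≡ 1 (mod 3)`
-/

set_option autoImplicit false

namespace Pool.Agent.N693.P21.R

open Finset Pool.Agent.N877.TF Pool.Agent.N877.P21

theorem jac3 {n : ℕ} (hodd : Odd n) (h3 : n % 3 = 1) : jacobiSym (-3) n = 1 := by
  have h : jacobiSym (-3) n = jacobiSym n 3 := by
    rcases (by obtain ⟨k, hk⟩ := hodd; omega : n % 4 = 1 ∨ n % 4 = 3) with h4 | h4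
    · rw [show (-3 : ℤ) = -1 * ((3 : ℕ) : ℤ) by norm_num, jacobiSym.mul_left,
        jacobiSym.at_neg_one hodd, ZMod.χ₄_nat_one_mod_four h4, one_mul]
      exact jacobiSym.quadratic_reciprocity_one_mod_four' (by decide) h4
    · rw [show (-3 : ℤ) = -1 * ((3 : ℕ) : ℤ) by norm_num, jacobiSym.mul_left,
        jacobiSym.at_neg_one hodd, ZMod.χ₄_nat_three_mod_four h4,
        jacobiSym.quadratic_reciprocity_three_mod_four (by norm_num) h4]
      ring
  rw [h, jacobiSym.mod_left, show ((n : ℤ) % ((3 : ℕ) : ℤ)) = 1 by omega, jacobiSym.one_left]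

theorem jac12 {n p : ℕ} (hodd : Odd n) (hpn : p ∣ n) (x : ℤ) :
    jacobiSym (-(2 * 6 * x)) p = jacobiSym (-3 * x) p := by
  have h2 : jacobiSym ((2 : ℤ) ^ 2) p = 1 := by
    apply jacobiSym.sq_one'
    have hp : Odd p := hodd.of_dvd_nat hpn
    have : Nat.Coprime 2 p := Nat.coprime_two_left.2 hp
    exact_mod_cast this
  have : -(2 * 6 * x) = (-3 * x) * 2 ^ 2 := by ring
  rw [this, jacobiSym.mul_left, h2, mul_one]

theorem AF_eq {n : ℕ} (hodd : Odd n) : AF n 6 = Pool.Agent.N877.P24.AAf n (-3) := by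
  unfold AF Pool.Agent.N877.P24.AAf
  refine Finset.filter_congr fun r hr => ?_
  have hrn := Nat.dvd_of_mem_divisors hr
  refine and_congr_right fun _ => and_congr ?_ ?_
  · refine forall₂_congr fun p hp => ?_
    rw [jac12 hodd ((Nat.dvd_of_mem_primeFactors hp).trans hrn)]
  · refine forall₂_congr fun p hp => ?_
    rw [jac12 hodd ((Nat.dvd_of_mem_primeFactors hp).trans (Nat.div_dvd_of_dvd hrn))]

/-- **R** -/
theorem t_R : S_R := by
  intro n hsq h4 h3
  have hodd : Odd n := Nat.odd_iff.2 (by omega)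
  have hn3 : n ≠ 3 := by omega
  have hcop : IsCoprime S21.d (n : ℤ) := by
    rw [d21]
    have : Nat.Coprime 6 n := by
      rw [show 6 = 2 * 3 by norm_num]
      refine Nat.Coprime.mul_left ?_ ?_
      · exact (Nat.Prime.coprime_iff_not_dvd Nat.prime_two).2 (by omega)
      · exact (Nat.Prime.coprime_iff_not_dvd (by norm_num)).2 (by omega)
    exact_mod_cast Nat.isCoprime_iff_coprime.2 this
  refine ⟨3 * (((Rd n).filter fun g => Gc n 6 g).card : ℤ), ?_, ?_⟩
  · have h := card_vec S21 pos21 tors21 (by norm_num) (by rw [d21]; norm_num) hsq hodd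
      hn3 hcop (mem_vec' n) (fun _ _ u _ => even21 u)
    rw [d21] at h
    have h' : (2 : ℤ) * (vec n).card = 2 * (2 ^ (n.primeFactors.card + 1) * (3 *
        ((Rd n).filter fun g => Gc n 6 g).card)) := by
      have : ((2 * (vec n).card : ℕ) : ℤ) = ((12 * 2 ^ n.primeFactors.card *
        ((Rd n).filter fun g => Gc n 6 g).card : ℕ) : ℤ) := by rw [h]
      push_cast at this
      rw [this]; ring
    exact mul_left_cancel₀ two_ne_zero h'
  · have hg : ∀ p ∈ n.primeFactors, (-3 : ℤ).gcd (p : ℤ) = 1 := by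
      intro p hp
      have hpp := Nat.prime_of_mem_primeFactors hp
      change Nat.gcd 3 p = 1
      refine (Nat.coprime_primes Nat.prime_three hpp).2 ?_
      rintro rfl
      have := Nat.dvd_of_mem_primeFactors hp
      omega
    have hQ : Pool.Agent.N969.P15.Qc n ↔ Pool.Agent.N855.P15.Qj n := Pool.Agent.N855.P15.Qc_iff hsq.ne_zero
    rw [hQ, ← Pool.Agent.N877.P24.aaf hsq h4 (-3) hg (jac3 hodd h3), ← AF_eq hodd,
      ← card_amb hsq h4 hn3, ← card_parity hodd]
    rw [Int.odd_mul]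
    constructor
    · rintro ⟨-, h⟩
      exact_mod_cast h
    · intro h
      exact ⟨by decide, by exact_mod_cast h⟩

end Pool.Agent.N693.P21.R
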