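import Pool.Agent.N693.P21.Ge
import Pool.Agent.N916.RE.Am

/-!
# Ambiguous forms, even discriminants, level 21 (after `N916/RE/Am.lean`)
-/

set_option autoImplicit false

namespace Pool.Agent.N693.P21

open Finset Pool.Agent.N877.TF
open Pool.Agent.N916.RE (Ie wv Nn Nn_sq two_dvd_Nn dvd_Nn prime_dvd_Nn pf4 card_pf4 jac_all odd_pf eps sq_fac two_sym)
open Pool.Agent.N855.P15 (jac_prod_right)

/-- parity: only the ambiguous forms count -/
theorem card_parity (m : ℕ) :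
    Odd ((Rd (4 * m)).filter fun g => GcE m g).card ↔
      Odd ((Rd (4 * m)).filter fun g => GcE m g ∧ (g.2.1 = 0 ∨ g.2.1 = g.1 ∨ g.1 = g.2.2)).card := by
  classical
  have hsplit : ((Rd (4 * m)).filter fun g => GcE m g).card =
      ((Rd (4 * m)).filter fun g => GcE m g ∧ (g.2.1 = 0 ∨ g.2.1 = g.1 ∨ g.1 = g.2.2)).card +
      ((Rd (4 * m)).filter fun g => GcE m g ∧ ¬ (g.2.1 = 0 ∨ g.2.1 = g.1 ∨ g.1 = g.2.2)).card := by
    rw [← Finset.card_filter_add_card_filter_not (s := (Rd (4 * m)).filter fun g => GcE m g)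
      (fun g => g.2.1 = 0 ∨ g.2.1 = g.1 ∨ g.1 = g.2.2), Finset.filter_filter, Finset.filter_filter]
  have heven : Even ((Rd (4 * m)).filter fun g => GcE m g ∧
      ¬ (g.2.1 = 0 ∨ g.2.1 = g.1 ∨ g.1 = g.2.2)).card := by
    have h0 : ∑ _g ∈ (Rd (4 * m)).filter (fun g => GcE m g ∧
        ¬ (g.2.1 = 0 ∨ g.2.1 = g.1 ∨ g.1 = g.2.2)), (1 : ZMod 2) = 0 := by
      refine Finset.sum_involution (fun g _ => (g.1, -g.2.1, g.2.2)) ?_ ?_ ?_ ?_
      · intro g _; decide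
      · rintro ⟨a, b, c⟩ hg _ h
        simp only [Prod.mk.injEq, true_and, and_true] at h
        have := (Finset.mem_filter.1 hg).2.2
        simp only at this
        exact this (Or.inl (by omega))
      · rintro ⟨a, b, c⟩ hg
        obtain ⟨h1, h2, h3⟩ := Finset.mem_filter.1 hg
        rw [Finset.mem_filter]
        have hR := mem_Rd.1 h1
        simp only at hR h2 h3 ⊢
        push Not at h3
        obtain ⟨r1, r2, r3, r4, r5, r6⟩ := hR
        refine ⟨mem_Rd.2 ⟨by rw [← r1]; ring, r2, by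
          simp only; have := lt_of_le_of_ne r4 h3.2.1; linarith, by simp only; linarith, r5,
          fun h => absurd h h3.2.2⟩, h2, ?_⟩
        · rintro (h | h | h)
          · exact h3.1 (by linarith)
          · linarith
          · exact h3.2.2 h
      · rintro ⟨a, b, c⟩ _
        simp
    rw [Finset.sum_const, nsmul_eq_mul, mul_one] at h0
    exact (ZMod.natCast_eq_zero_iff_even).1 h0
  rw [hsplit, Nat.odd_add]
  exact ⟨fun h => h.2 heven, fun h => ⟨fun _ => heven, fun _ => h⟩⟩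

/-- the condition on a factorization -/
def Cc (t r s : ℕ) : Prop := (∀ p ∈ s.primeFactors, p ≠ 2 → jacobiSym (-(3 * ((t : ℤ) * r))) p = 1) ∧
  (∀ p ∈ r.primeFactors, p ≠ 2 → jacobiSym (-(3 * ((t : ℤ) * s))) p = 1)

instance (t r s : ℕ) : Decidable (Cc t r s) := by unfold Cc; infer_instance

theorem Cc_symm {t r s : ℕ} : Cc t r s ↔ Cc t s r := by
  unfold Cc; exact and_comm

theorem jac_m3 {M : ℕ} (hM : Odd M) : jacobiSym (-3) M = jacobiSym (M : ℤ) 3 := by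
  have e : (-3 : ℤ) = -1 * 3 := by norm_num
  rw [e, jacobiSym.mul_left, jacobiSym.at_neg_one hM]
  have h1 : jacobiSym ((3 : ℕ) : ℤ) M = (-1) ^ (3 / 2 * (M / 2)) * jacobiSym (M : ℤ) 3 :=
    jacobiSym.quadratic_reciprocity (by decide) hM
  have h2 : jacobiSym (3 : ℤ) M = (-1) ^ (M / 2) * jacobiSym (M : ℤ) 3 := by
    rw [show (3 : ℤ) = ((3 : ℕ) : ℤ) by norm_num, h1]
    norm_num
  rw [h2, ZMod.χ₄_eq_neg_one_pow (Nat.odd_iff.1 hM), ← mul_assoc, ← pow_add, ← two_mul,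
    pow_mul]
  norm_num

theorem jac_3a {M : ℕ} (h : M % 3 = 1) : jacobiSym (M : ℤ) 3 = 1 := by
  rw [jacobiSym.mod_left]
  have : (M : ℤ) % ((3 : ℕ) : ℤ) = 1 := by omega
  rw [this]
  decide +kernel

theorem jac_3b {M : ℕ} (h : M % 3 = 2) : jacobiSym (M : ℤ) 3 = -1 := by
  rw [jacobiSym.mod_left]
  have : (M : ℤ) % ((3 : ℕ) : ℤ) = 2 := by omega
  rw [this]
  decide +kernel

/-- the product of the symbols of a factorization -/
theorem sign_C {t1 t2 : ℤ} {r s : ℕ} (hr : Odd r) (hs : Odd s) (hrs : Squarefree r)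
    (hss : Squarefree s) (h1 : ∀ p ∈ s.primeFactors, jacobiSym (-(3 * (t1 * r))) p = 1)
    (h2 : ∀ p ∈ r.primeFactors, jacobiSym (-(3 * (t2 * s))) p = 1) :
    jacobiSym (-3) (r * s) * jacobiSym t1 s * jacobiSym t2 r * (-1) ^ (r / 2 * (s / 2)) = 1 := by
  have k1 := jac_all hss h1
  have k2 := jac_all hrs h2
  have e1 : -(3 * (t1 * r)) = -3 * (t1 * r) := by ring
  have e2 : -(3 * (t2 * s)) = -3 * (t2 * s) := by ring
  rw [e1, jacobiSym.mul_left, jacobiSym.mul_left] at k1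
  rw [e2, jacobiSym.mul_left, jacobiSym.mul_left] at k2
  haveI : NeZero r := ⟨hrs.ne_zero⟩
  haveI : NeZero s := ⟨hss.ne_zero⟩
  rw [jacobiSym.mul_right]
  rw [jacobiSym.quadratic_reciprocity hr hs] at k1
  have hW : jacobiSym (s : ℤ) r * jacobiSym (s : ℤ) r = 1 := by
    apply Int.isUnit_mul_self
    exact IsUnit.of_mul_eq_one (jacobiSym (-3) r * jacobiSym t2 r) (by rw [← k2]; ring)
  linear_combination (jacobiSym (-3) r * (jacobiSym t2 r * jacobiSym (s : ℤ) r)) * k1 + k2 -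
    (jacobiSym (-3) r * jacobiSym (-3) s * jacobiSym t1 s * jacobiSym t2 r *
      (-1) ^ (r / 2 * (s / 2))) * hW

/-- `m` odd, diagonal forms -/
theorem rec1 {m r s : ℕ} (hsq : Squarefree m) (hm : m % 4 = 1) (h5 : m % 3 = 1)
    (h : r * s = m) (hC : Cc 1 r s) : r % 4 = 1 ∧ s % 4 = 1 := by
  obtain ⟨q1, q2, -⟩ := sq_fac hsq h
  have hmo : Odd (r * s) := by rw [h, Nat.odd_iff]; omega
  obtain ⟨hr, hs⟩ := Nat.odd_mul.1 hmo
  have hS := sign_C hr hs q1 q2 (fun p hp => hC.1 p hp (odd_pf hs p hp))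
    (fun p hp => hC.2 p hp (odd_pf hr p hp))
  rw [h, jac_m3 (by rw [← h]; exact hmo), jac_3a h5, eps hr hs] at hS
  simp only [Nat.cast_one, jacobiSym.one_left] at hS
  split_ifs at hS with hc
  · norm_num at hS
  · have hmul : (r % 4) * (s % 4) % 4 = 1 := by rw [← Nat.mul_mod, h, hm]
    rw [Nat.odd_iff] at hr hs
    have hr4 : r % 4 = 1 ∨ r % 4 = 3 := by omega
    have hs4 : s % 4 = 1 ∨ s % 4 = 3 := by omega
    rcases hr4 with h1 | h1 <;> rcases hs4 with h2 | h2 <;> rw [h1, h2] at hmul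
    · exact ⟨h1, h2⟩
    · norm_num at hmul
    · norm_num at hmul
    · exact absurd ⟨h1, h2⟩ hc

/-- `m` odd, the other ambiguous forms -/
theorem rec2 {m r s : ℕ} (hsq : Squarefree m) (hm : m % 4 = 1) (h5 : m % 3 = 1)
    (h : r * s = m) (hC : Cc 2 r s) : (r + s) % 8 = 2 := by
  obtain ⟨q1, q2, -⟩ := sq_fac hsq h
  have hmo : Odd (r * s) := by rw [h, Nat.odd_iff]; omega
  obtain ⟨hr, hs⟩ := Nat.odd_mul.1 hmo
  have hS := sign_C hr hs q1 q2 (fun p hp => hC.1 p hp (odd_pf hs p hp))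
    (fun p hp => hC.2 p hp (odd_pf hr p hp))
  have c2 : ((2 : ℕ) : ℤ) = 2 := rfl
  rw [h, jac_m3 (by rw [← h]; exact hmo), jac_3a h5, eps hr hs, c2,
    two_sym hr, two_sym hs] at hS
  have h1 : (r % 8) * (s % 8) % 4 = 1 := by
    have : (r % 8) * (s % 8) % 8 = m % 8 := by rw [← Nat.mul_mod, h]
    omega
  rw [Nat.odd_iff] at hr hs
  have hr8 : r % 8 = 1 ∨ r % 8 = 3 ∨ r % 8 = 5 ∨ r % 8 = 7 := by omega
  have hs8 : s % 8 = 1 ∨ s % 8 = 3 ∨ s % 8 = 5 ∨ s % 8 = 7 := by omega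
  have hr4 : r % 4 = r % 8 % 4 := by omega
  have hs4 : s % 4 = s % 8 % 4 := by omega
  rw [hr4, hs4] at hS
  have hadd : (r + s) % 8 = (r % 8 + s % 8) % 8 := Nat.add_mod _ _ _
  rw [hadd]
  generalize r % 8 = x at *
  generalize s % 8 = y at *
  rcases hr8 with rfl | rfl | rfl | rfl <;> rcases hs8 with rfl | rfl | rfl | rfl <;>
    simp at hS h1 ⊢

/-- `m` even -/
theorem rec3 {m r s : ℕ} (hsq : Squarefree m) (hm : m % 4 = 2) (h5 : m % 3 = 1)
    (h : r * s = m) (hr : Odd r) (hC : Cc 1 r s) : r % 8 = 5 ∨ r % 8 = (5 + 5 * m) % 8 := by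
  obtain ⟨q1, q2, -, -, hs0⟩ := sq_fac hsq h
  obtain ⟨s', hs'⟩ : ∃ s', s = 2 * s' := by
    have : Even (r * s) := by rw [h, Nat.even_iff]; omega
    rcases Nat.even_mul.1 this with h1 | h1
    · exact absurd h1 (Nat.not_even_iff_odd.2 hr)
    · obtain ⟨k, hk⟩ := h1
      exact ⟨k, by omega⟩
  have hM : 2 * (r * s') = m := by rw [← h, hs']; ring
  have hodd : Odd (r * s') := by rw [Nat.odd_iff]; omega
  have hso : Odd s' := (Nat.odd_mul.1 hodd).2
  have hs0' : s' ≠ 0 := by omega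
  have q3 : Squarefree s' := q2.squarefree_of_dvd ⟨2, by rw [hs']; ring⟩
  have hS := sign_C (t1 := 1) (t2 := 2) hr hso q1 q3 (fun p hp => by
      have hp' : p ∈ s.primeFactors := Nat.mem_primeFactors.2 ⟨Nat.prime_of_mem_primeFactors hp,
        (Nat.dvd_of_mem_primeFactors hp).trans ⟨2, by rw [hs']; ring⟩, hs0.ne'⟩
      exact_mod_cast hC.1 p hp' (odd_pf hso p hp))
    (fun p hp => by
      have := hC.2 p hp (odd_pf hr p hp)
      have e : ((1 : ℕ) : ℤ) * (s : ℤ) = 2 * s' := by rw [hs']; push_cast; ring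
      rw [e] at this
      exact this)
  rw [jac_m3 hodd, jac_3b (by omega), eps hr hso, two_sym hr, jacobiSym.one_left] at hS
  rw [Nat.odd_iff] at hr hso hodd
  have hr8 : r % 8 = 1 ∨ r % 8 = 3 ∨ r % 8 = 5 ∨ r % 8 = 7 := by omega
  have hs8 : s' % 4 = 1 ∨ s' % 4 = 3 := by omega
  have hr4 : r % 4 = r % 8 % 4 := by omega
  have hmul : r * s' % 4 = (r % 8 % 4) * (s' % 4) % 4 := by rw [Nat.mul_mod, hr4]
  have hm8 : (5 + 5 * m) % 8 = (5 + 10 * (r * s' % 4)) % 8 := by omega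
  rw [hm8]
  rw [hmul]
  rw [hr4] at hS
  generalize r % 8 = x at *
  generalize s' % 4 = y at *
  rcases hr8 with rfl | rfl | rfl | rfl <;> rcases hs8 with rfl | rfl <;>
    simp at hS ⊢

end Pool.Agent.N693.P21
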