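import Pool.Agent.N693.P21.T1

/-!
# The number of isometries
-/

set_option autoImplicit false

namespace Pool.Agent.N693.P21

open Finset Matrix Pool.Agent.N877.TF

/-- the Gram matrix of the lattice -/
def Fm : Matrix (Fin 3) (Fin 3) ℤ := !![2, 0, 0; 0, 2, -1; 0, -1, 2]

/-- the matrix with given columns -/
def cols (v w z : V) : Matrix (Fin 3) (Fin 3) ℤ := (Matrix.of ![v, w, z])ᵀ

theorem cols_eq (A : Matrix (Fin 3) (Fin 3) ℤ) : A = cols (fun i => A i 0) (fun i => A i 1)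
    (fun i => A i 2) := by
  ext i j
  fin_cases j <;> rfl

theorem det_cols (v w z : V) : (cols v w z).det = dt (crs v w) z := by
  rw [cols, det_transpose, det_fin_three, dt, crs0, crs1, crs2]
  show v 0 * w 1 * z 2 - v 0 * w 2 * z 1 - v 1 * w 0 * z 2 + v 1 * w 2 * z 0 + v 2 * w 0 * z 1 -
    v 2 * w 1 * z 0 = _
  ring

theorem quad (A : Matrix (Fin 3) (Fin 3) ℤ) (i j : Fin 3) :
    (Aᵀ * Fm * A) i j = S21.B (fun k => A k i) (fun k => A k j) := by
  rw [mul_apply, Fin.sum_univ_three]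
  simp only [mul_apply, Fin.sum_univ_three, transpose_apply, B21, Fm]
  simp
  ring

/-- the symmetric matrix with given entries -/
def sm (a b c p q r : ℤ) : Matrix (Fin 3) (Fin 3) ℤ := !![a, b, p; b, c, q; p, q, r]

theorem gram_iff (v w z : V) (a b c p q r : ℤ) :
    (cols v w z)ᵀ * Fm * cols v w z = sm a b c p q r ↔ S21.B v v = a ∧ S21.B v w = b ∧
      S21.B w w = c ∧ S21.B v z = p ∧ S21.B w z = q ∧ S21.B z z = r := by
  constructor
  · intro h
    have hh : ∀ i j, ((cols v w z)ᵀ * Fm * cols v w z) i j = sm a b c p q r i j :=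
      fun i j => by rw [h]
    exact ⟨(quad _ 0 0).symm.trans (hh 0 0), (quad _ 0 1).symm.trans (hh 0 1),
      (quad _ 1 1).symm.trans (hh 1 1), (quad _ 0 2).symm.trans (hh 0 2),
      (quad _ 1 2).symm.trans (hh 1 2), (quad _ 2 2).symm.trans (hh 2 2)⟩
  · rintro ⟨h1, h2, h3, h4, h5, h6⟩
    ext i j
    rw [quad]
    fin_cases i <;> fin_cases j
    · exact h1
    · exact h2
    · exact h4
    · exact (S21.B_comm _ _).trans h2
    · exact h3
    · exact h5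
    · exact (S21.B_comm _ _).trans h4
    · exact (S21.B_comm _ _).trans h5
    · exact h6

theorem Fm_sm : Fm = sm 2 0 2 0 (-1) 2 := rfl

/-- the vectors of norm two -/
def u2 : Fin 8 → V := ![![1, 0, 0], ![-1, 0, 0], ![0, 1, 0], ![0, -1, 0], ![0, 0, 1], ![0, 0, -1],
  ![0, 1, 1], ![0, -1, -1]]

theorem vec3 (v : V) : v = ![v 0, v 1, v 2] := by ext i; fin_cases i <;> rfl

theorem bound21 {v : V} (h : S21.B v v = 2) :
    -1 ≤ v 0 ∧ v 0 ≤ 1 ∧ -1 ≤ v 1 ∧ v 1 ≤ 1 ∧ -1 ≤ v 2 ∧ v 2 ≤ 1 := by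
  rw [B21] at h
  have h' : 2 * v 0 ^ 2 + v 1 ^ 2 + v 2 ^ 2 + (v 1 - v 2) ^ 2 = 2 := by
    linear_combination h
  have a0 := sq_nonneg (v 0)
  have a1 := sq_nonneg (v 1)
  have a2 := sq_nonneg (v 2)
  have a3 := sq_nonneg (v 1 - v 2)
  refine ⟨by nlinarith, by nlinarith, by nlinarith, by nlinarith, by nlinarith, by nlinarith⟩

/-- all small vectors -/
def box : Finset (ℤ × ℤ × ℤ) := ({-1, 0, 1} : Finset ℤ) ×ˢ
  ({-1, 0, 1} : Finset ℤ) ×ˢ ({-1, 0, 1} : Finset ℤ)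

theorem mem_box {x y z : ℤ} (h0 : -1 ≤ x) (h1 : x ≤ 1) (h2 : -1 ≤ y) (h3 : y ≤ 1) (h4 : -1 ≤ z)
    (h5 : z ≤ 1) : (x, y, z) ∈ box := by
  simp only [box, mem_product, mem_insert, mem_singleton]
  omega

theorem u2_surj_aux : ∀ t ∈ box, S21.B ![t.1, t.2.1, t.2.2] ![t.1, t.2.1, t.2.2] = 2 →
    ∃ i, u2 i = ![t.1, t.2.1, t.2.2] := by
  decide +kernel

theorem u2_surj {v : V} (h : S21.B v v = 2) : ∃ i, u2 i = v := by
  obtain ⟨h0, h1, h2, h3, h4, h5⟩ := bound21 h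
  have := u2_surj_aux (v 0, v 1, v 2) (mem_box h0 h1 h2 h3 h4 h5)
    (by rw [← vec3]; exact h)
  obtain ⟨i, hi⟩ := this
  exact ⟨i, by rw [hi]; exact (vec3 v).symm⟩

theorem u2_inj : Function.Injective u2 := by decide

/-- the frames of the lattice -/
def chk (p : Fin 8 × Fin 8 × Fin 8) : Bool :=
  S21.B (u2 p.1) (u2 p.2.1) = 0 && S21.B (u2 p.1) (u2 p.2.2) = 0 &&
    S21.B (u2 p.2.1) (u2 p.2.2) = -1 && dt (crs (u2 p.1) (u2 p.2.1)) (u2 p.2.2) = 1

theorem chk_card : (Finset.univ.filter fun p : Fin 8 × Fin 8 × Fin 8 => chk p = true).card = 12 := by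
  decide +kernel

theorem card_rot : Nat.card {R : Matrix (Fin 3) (Fin 3) ℤ // Rᵀ * Fm * R = Fm ∧ R.det = 1} = 12 := by
  have key : ∀ v w z : V, ((cols v w z)ᵀ * Fm * cols v w z = Fm ∧ (cols v w z).det = 1) ↔
      (S21.B v v = 2 ∧ S21.B v w = 0 ∧ S21.B w w = 2 ∧ S21.B v z = 0 ∧ S21.B w z = -1 ∧
        S21.B z z = 2) ∧ dt (crs v w) z = 1 := by
    intro v w z
    rw [det_cols]
    conv_lhs => rw [show ((cols v w z)ᵀ * Fm * cols v w z = Fm) ↔
      ((cols v w z)ᵀ * Fm * cols v w z = sm 2 0 2 0 (-1) 2) from Iff.rfl]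
    rw [gram_iff]
  have h2 : ∀ i, S21.B (u2 i) (u2 i) = 2 := by decide
  let G : {p : Fin 8 × Fin 8 × Fin 8 // chk p = true} →
      {R : Matrix (Fin 3) (Fin 3) ℤ // Rᵀ * Fm * R = Fm ∧ R.det = 1} := fun p =>
    ⟨cols (u2 p.1.1) (u2 p.1.2.1) (u2 p.1.2.2), (key _ _ _).2 (by
      have h := p.2
      simp only [chk, Bool.and_eq_true, decide_eq_true_eq] at h
      exact ⟨⟨h2 _, h.1.1.1, h2 _, h.1.1.2, h.1.2, h2 _⟩, h.2⟩)⟩
  have hG : Function.Bijective G := by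
    constructor
    · rintro ⟨⟨i, j, k⟩, hp⟩ ⟨⟨i', j', k'⟩, hp'⟩ h
      have h1 := congrArg Subtype.val h
      have h2 : ∀ r c, cols (u2 i) (u2 j) (u2 k) r c = cols (u2 i') (u2 j') (u2 k') r c :=
        fun r c => congrFun (congrFun h1 r) c
      have e1 : i = i' := u2_inj (funext fun r => h2 r 0)
      have e2 : j = j' := u2_inj (funext fun r => h2 r 1)
      have e3 : k = k' := u2_inj (funext fun r => h2 r 2)
      subst e1; subst e2; subst e3
      rfl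
    · rintro ⟨R, hR⟩
      have hR' := hR
      rw [cols_eq R, key] at hR'
      obtain ⟨⟨h1, h2, h3, h4, h5, h6⟩, h7⟩ := hR'
      obtain ⟨i, hi⟩ := u2_surj h1
      obtain ⟨j, hj⟩ := u2_surj h3
      obtain ⟨k, hk⟩ := u2_surj h6
      refine ⟨⟨(i, j, k), ?_⟩, ?_⟩
      · simp only [chk, Bool.and_eq_true, decide_eq_true_eq, hi, hj, hk]
        exact ⟨⟨⟨h2, h4⟩, h5⟩, h7⟩
      · apply Subtype.ext
        show cols (u2 i) (u2 j) (u2 k) = R
        rw [hi, hj, hk]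
        exact (cols_eq R).symm
  rw [← Nat.card_eq_of_bijective G hG, Nat.card_eq_fintype_card, Fintype.card_subtype]
  exact chk_card

/-- every even Gram matrix of determinant `6` occurs twelve times -/
theorem tors (a b c p q r' : ℤ) (ha : 0 < a) (hD : 0 < 4 * a * c - b ^ 2)
    (hdet3 : 4 * a * c * r' + b * p * q - a * q ^ 2 - c * p ^ 2 - r' * b ^ 2 = 3) :
    Nat.card (S21.Fr (2 * a) b (2 * c) p q (2 * r')) = 12 := by
  obtain ⟨x, y, z, h1, h2, h3, h4, h5, h6⟩ := rep_of (a + (4 * a * c - b ^ 2)).toNat a b c p q r'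
    ha hD hdet3 (by rw [Int.toNat_of_nonneg (by linarith)])
  set M := sm (2 * a) b (2 * c) p q (2 * r') with hM
  have hA : (cols x y z)ᵀ * Fm * cols x y z = M := (gram_iff _ _ _ _ _ _ _ _ _).2
    ⟨h1, h2, h3, h4, h5, h6⟩
  have hdM : M.det = 6 := by
    rw [hM, sm, det_fin_three]
    simp
    linear_combination 2 * hdet3
  have hdF : Fm.det = 6 := by
    rw [Fm, det_fin_three]; simp
  have hd2 : (cols x y z).det * (cols x y z).det = 1 := by
    have := congrArg det hA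
    rw [det_mul, det_mul, det_transpose, hdM, hdF] at this
    linarith
  obtain ⟨A0, hA0, hd0⟩ : ∃ A0 : Matrix (Fin 3) (Fin 3) ℤ, A0ᵀ * Fm * A0 = M ∧ A0.det = 1 := by
    rcases mul_self_eq_one_iff.1 hd2 with h | h
    · exact ⟨_, hA, h⟩
    · refine ⟨-(cols x y z), ?_, ?_⟩
      · rw [transpose_neg, neg_mul, neg_mul_neg, hA]
      · rw [det_neg, h]; simp
  -- frames are matrices
  have e1 : Nat.card (S21.Fr (2 * a) b (2 * c) p q (2 * r')) =
      Nat.card {A : Matrix (Fin 3) (Fin 3) ℤ // Aᵀ * Fm * A = M ∧ A.det = 1} := by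
    refine Nat.card_congr ⟨fun t => ⟨cols t.1.1 t.1.2.1 t.1.2.2, (gram_iff _ _ _ _ _ _ _ _ _).2
      t.2.2, by rw [det_cols]; exact t.2.1⟩, fun A => ⟨(fun i => A.1 i 0, fun i => A.1 i 1,
      fun i => A.1 i 2), ?_, ?_⟩, ?_, ?_⟩
    · have := A.2.2
      rw [cols_eq A.1, det_cols] at this
      exact this
    · exact (gram_iff _ _ _ _ _ _ _ _ _).1 (by rw [← cols_eq]; exact A.2.1)
    · intro t
      rfl
    · intro A
      apply Subtype.ext
      exact (cols_eq A.1).symm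
  rw [e1, ← card_rot]
  have hu : IsUnit A0.det := by rw [hd0]; exact isUnit_one
  have k1 : A0 * A0⁻¹ = 1 := mul_nonsing_inv A0 hu
  have k2 : A0⁻¹ * A0 = 1 := nonsing_inv_mul A0 hu
  have k3 : A0⁻¹ᵀ * A0ᵀ = 1 := by rw [← transpose_mul, k1, transpose_one]
  have k4 : A0⁻¹.det = 1 := by
    have := congrArg det k1
    rwa [det_mul, hd0, one_mul, det_one] at this
  refine Nat.card_congr ?_
  refine ⟨fun A => ⟨A.1 * A0⁻¹, ?_, ?_⟩, fun R => ⟨R.1 * A0, ?_, ?_⟩, ?_, ?_⟩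
  · have : (A.1 * A0⁻¹)ᵀ * Fm * (A.1 * A0⁻¹) = A0⁻¹ᵀ * (A.1ᵀ * Fm * A.1) * A0⁻¹ := by
      rw [transpose_mul]; simp only [Matrix.mul_assoc]
    rw [this, A.2.1, ← hA0]
    have : A0⁻¹ᵀ * (A0ᵀ * Fm * A0) * A0⁻¹ = (A0⁻¹ᵀ * A0ᵀ) * Fm * (A0 * A0⁻¹) := by
      simp only [Matrix.mul_assoc]
    rw [this, k1, k3, Matrix.one_mul, Matrix.mul_one]
  · rw [det_mul, A.2.2, k4, one_mul]
  · have : (R.1 * A0)ᵀ * Fm * (R.1 * A0) = A0ᵀ * (R.1ᵀ * Fm * R.1) * A0 := by
      rw [transpose_mul]; simp only [Matrix.mul_assoc]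
    rw [this, R.2.1, hA0]
  · rw [det_mul, R.2.2, hd0, one_mul]
  · intro A
    apply Subtype.ext
    show A.1 * A0⁻¹ * A0 = A.1
    rw [Matrix.mul_assoc, k2, Matrix.mul_one]
  · intro R
    apply Subtype.ext
    show R.1 * A0 * A0⁻¹ = R.1
    rw [Matrix.mul_assoc, k1, Matrix.mul_one]

theorem tors21 : S21.Tors 12 := by
  intro a b c p q r ha hD hodd hdet
  rw [d21] at hdet
  -- `r` is even
  obtain ⟨r', hr'⟩ : Even r := by
    have h1 : Even ((4 * a * c - b ^ 2) * r) := by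
      rw [hdet]; exact ⟨3 + (c * p ^ 2 - b * p * q + a * q ^ 2), by ring⟩
    rcases Int.even_mul.1 h1 with h | h
    · exact absurd h (Int.not_even_iff_odd.2 hodd)
    · exact h
  have hr2 : r = 2 * r' := by rw [hr']; ring
  subst hr2
  refine tors a b c p q r' ha hD ?_
  have : 2 * (4 * a * c * r' + b * p * q - a * q ^ 2 - c * p ^ 2 - r' * b ^ 2) = 2 * 3 := by
    linear_combination hdet
  exact mul_left_cancel₀ two_ne_zero this

end Pool.Agent.N693.P21
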