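import Pool.Agent.N916.RE.Ix
import Pool.Agent.N693.P21.T2

/-!
# Counting pairs with a given Gram matrix, even discriminants, level 21 (after `N916/RE/Cn.lean`)
-/

set_option autoImplicit false

namespace Pool.Agent.N693.P21

open Finset Matrix Pool.Agent.N877.TF
open Pool.Agent.N916.RE (Ie)

/-- vectors of norm `4 m` are primitive -/
theorem prim {m : ℕ} (hsq : Squarefree m) (hm : m % 4 = 1 ∨ m % 4 = 2) {v : V}
    (h : S21.nm v = (4 * m : ℕ)) : ∃ y, dt v y = 1 := by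
  apply bez
  intro g hg
  choose w hw using hg
  have h0 : v = (g : ℤ) • w := funext fun i => by rw [Pi.smul_apply, smul_eq_mul]; exact hw i
  have h1 : (g : ℤ) ^ 2 * S21.nm w = 4 * m := by
    rw [← nm_smul, ← h0, h]; push_cast; ring
  have h4 : S21.nm w % 4 = 0 ∨ S21.nm w % 4 = 3 := by
    rw [nm21]
    rcases Int.even_or_odd (w 0) with ⟨k, hk⟩ | ⟨k, hk⟩
    · left
      have : 3 * w 0 ^ 2 + 4 * w 1 ^ 2 + 4 * w 2 ^ 2 + 4 * (w 1 * w 2) =
        4 * (3 * k ^ 2 + w 1 ^ 2 + w 2 ^ 2 + w 1 * w 2) := by rw [hk]; ring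
      omega
    · right
      have : 3 * w 0 ^ 2 + 4 * w 1 ^ 2 + 4 * w 2 ^ 2 + 4 * (w 1 * w 2) =
        4 * (3 * k ^ 2 + 3 * k + w 1 ^ 2 + w 2 ^ 2 + w 1 * w 2) + 3 := by rw [hk]; ring
      omega
  have hg0 : g ≠ 0 := by
    rintro rfl
    have : (0 : ℤ) = 4 * m := by rw [← h1]; norm_num
    omega
  -- `g` is odd
  have hodd : ¬ 2 ∣ g := by
    rintro ⟨k, rfl⟩
    have h2 : (k : ℤ) ^ 2 * S21.nm w = m := by
      have : (4 : ℤ) * (k ^ 2 * S21.nm w) = 4 * m := by rw [← h1]; push_cast; ring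
      linarith
    have h3 : ((k * k : ℕ) : ℤ) ∣ (m : ℤ) := ⟨S21.nm w, by rw [← h2]; push_cast; ring⟩
    have h5 : k * k ∣ m := by exact_mod_cast h3
    have h6 := Nat.isUnit_iff.1 (hsq k h5)
    subst h6
    norm_num at h2
    omega
  have h5 : g * g ∣ 4 * m := by
    have : ((g * g : ℕ) : ℤ) ∣ ((4 * m : ℕ) : ℤ) := ⟨S21.nm w, by push_cast; rw [← h1]; ring⟩
    exact_mod_cast this
  have h6 : Nat.Coprime (g * g) 4 := by
    have h7 : Nat.Coprime g 2 := by
      rw [Nat.coprime_comm]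
      exact (Nat.Prime.coprime_iff_not_dvd Nat.prime_two).2 hodd
    have h8 : Nat.Coprime g 4 := by
      have : (4 : ℕ) = 2 * 2 := rfl
      rw [this]
      exact Nat.Coprime.mul_right h7 h7
    exact Nat.Coprime.mul_left h8 h8
  exact Nat.isUnit_iff.1 (hsq g (h6.dvd_of_dvd_mul_left h5))

theorem card_PP {a b c : ℤ} {m : ℕ} (hn : a * c - b ^ 2 = m) (ha : 0 < a) (hm0 : 0 < m)
    (hodd : Odd a) (hcop : IsCoprime a (m : ℤ)) (hpr : ∀ v, S21.nm v = (4 * m : ℕ) → ∃ z, dt v z = 1) :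
    Nat.card (S21.PP (2 * a) (2 * b) (2 * c)) = 12 * (Ie m (3 * a)).card := by
  have hmZ : (0 : ℤ) < m := by exact_mod_cast hm0
  -- `a` is prime to `2 b`
  have ha2 : IsCoprime a 2 := by
    obtain ⟨k, hk⟩ := hodd
    exact ⟨1, -k, by rw [hk]; ring⟩
  have ha4 : IsCoprime a (4 * (m : ℤ)) := by
    have : (4 : ℤ) * m = 2 * (2 * m) := by ring
    rw [this]
    exact ha2.mul_right (ha2.mul_right hcop)
  have hab : IsCoprime a (2 * b) := by
    have h1 : IsCoprime a (b ^ 2) := by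
      obtain ⟨u, v, huv⟩ := hcop
      refine ⟨u + v * c, -v, ?_⟩
      rw [← hn] at huv
      linear_combination huv
    exact ha2.mul_right ((IsCoprime.pow_right_iff (by norm_num)).1 h1)
  obtain ⟨k2, k1', hk'⟩ := hab
  obtain ⟨k1, hk1⟩ : ∃ k1, k1 = -k1' := ⟨_, rfl⟩
  have hk : a * k2 - 2 * b * k1 = 1 := by rw [hk1]; linear_combination hk'
  clear hk' hk1
  -- the invariants of an index
  let P : ℤ × ℤ → ℤ := fun t => t.2 + 2 * (k1 * (t.1 + b * t.2))
  let Q : ℤ × ℤ → ℤ := fun t => k2 * (t.1 + b * t.2)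
  have hPQ : ∀ t, a * Q t - b * P t = t.1 := by
    intro t
    simp only [P, Q]
    linear_combination (t.1 + b * t.2) * hk
  let W : ℤ × ℤ → ℤ := fun t => 3 + c * P t ^ 2 - 2 * b * P t * Q t + a * Q t ^ 2
  have hW : ∀ t, a * W t = t.1 ^ 2 + m * P t ^ 2 + 3 * a := by
    intro t
    simp only [W]
    have := hPQ t
    linear_combination (a * Q t - b * P t + t.1) * this + P t ^ 2 * hn
  have hdiv : ∀ t, (4 * (m : ℤ)) ∣ W t ↔ (4 * (m : ℤ)) ∣ t.1 ^ 2 + m * t.2 ^ 2 + 3 * a := by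
    intro t
    have e1 : a * W t = (t.1 ^ 2 + m * t.2 ^ 2 + 3 * a) +
        4 * m * (t.2 * (k1 * (t.1 + b * t.2)) + (k1 * (t.1 + b * t.2)) ^ 2) := by
      rw [hW]; simp only [P]; ring
    constructor
    · intro h
      have h2 : (4 * (m : ℤ)) ∣ a * W t := Dvd.dvd.mul_left h _
      rw [e1] at h2
      exact (dvd_add_left (Dvd.intro _ rfl)).1 h2
    · intro h
      have h2 : (4 * (m : ℤ)) ∣ a * W t := by
        rw [e1]; exact dvd_add h (Dvd.intro _ rfl)
      exact ha4.symm.dvd_of_dvd_mul_left h2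
  let R : ℤ × ℤ → ℤ := fun t => W t / (4 * m)
  have hR : ∀ t : ℤ × ℤ, (4 * (m : ℤ)) ∣ t.1 ^ 2 + m * t.2 ^ 2 + 3 * a → (4 * (m : ℤ)) * R t = W t :=
    fun t ht => Int.mul_ediv_cancel' ((hdiv t).2 ht)
  let tt : ℕ × ℕ → ℤ × ℤ := fun t => ((t.1 : ℤ), (t.2 : ℤ))
  have hmem : ∀ t ∈ Ie m (3 * a), (4 * (m : ℤ)) ∣ (tt t).1 ^ 2 + m * (tt t).2 ^ 2 + 3 * a := by
    intro t ht
    have := (Finset.mem_filter.1 ht).2
    push_cast at this
    exact this
  have hfr : ∀ t : {t : ℕ × ℕ // t ∈ Ie m (3 * a)},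
      Nat.card (S21.Fr (2 * a) (2 * b) (2 * c) (P (tt t.1)) (Q (tt t.1)) (2 * R (tt t.1))) = 12 := by
    rintro ⟨t, ht⟩
    apply tors a (2 * b) c _ _ _ ha
    · have : 4 * a * c - (2 * b) ^ 2 = 4 * m := by rw [← hn]; ring
      rw [this]; positivity
    · have h1 := hR (tt t) (hmem t ht)
      simp only [W] at h1
      rw [← hn] at h1
      linear_combination h1
  haveI : ∀ t : {t : ℕ × ℕ // t ∈ Ie m (3 * a)},
      Finite (S21.Fr (2 * a) (2 * b) (2 * c) (P (tt t.1)) (Q (tt t.1)) (2 * R (tt t.1))) := fun u =>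
    Nat.finite_of_card_ne_zero (by rw [hfr u]; norm_num)
  have hsig : Nat.card (Σ t : {t : ℕ × ℕ // t ∈ Ie m (3 * a)},
      S21.Fr (2 * a) (2 * b) (2 * c) (P (tt t.1)) (Q (tt t.1)) (2 * R (tt t.1))) =
      12 * (Ie m (3 * a)).card := by
    rw [Nat.card_sigma, Finset.sum_congr rfl (fun x _ => hfr x), Finset.sum_const, smul_eq_mul,
      Finset.card_univ, Fintype.card_coe, mul_comm]
  rw [← hsig]
  symm
  refine Nat.card_eq_of_bijective (fun t => (⟨(t.2.1.1, t.2.1.2.1), t.2.2.2.1, t.2.2.2.2.1,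
    t.2.2.2.2.2.1⟩ : S21.PP (2 * a) (2 * b) (2 * c))) ⟨?_, ?_⟩
  · rintro ⟨⟨⟨u, e⟩, hu⟩, ⟨⟨x, y, z⟩, h1, h2, h3, h4, h5, h6, h7⟩⟩
      ⟨⟨⟨u', e'⟩, hu'⟩, ⟨⟨x', y', z'⟩, g1, g2, g3, g4, g5, g6, g7⟩⟩ heq
    have e0 := congrArg Subtype.val heq
    simp only [Prod.mk.injEq] at e0
    obtain ⟨rfl, rfl⟩ := e0
    simp only [tt] at h1 h2 h3 h4 h5 h6 h7 g1 g2 g3 g4 g5 g6 g7
    -- the difference of the third vectors
    obtain ⟨k, l, hkl⟩ := span_of (x := x) (y := y) (z := z) (u := z' - z) h1 (by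
      have : dt (crs x y) (z' - z) = dt (crs x y) z' - dt (crs x y) z := by
        simp only [dt, Pi.sub_apply]; ring
      rw [this, h1, g1]; ring)
    have hz' : z' = z + k • x + l • y := by
      rw [add_assoc, ← hkl]; abel
    rw [hz', B_add, h2, h3, h5] at g5
    rw [hz', B_add, S21.B_comm y x, h3, h4, h6] at g6
    have p1 := hPQ ((u : ℤ), (e : ℤ))
    have p2 := hPQ ((u' : ℤ), (e' : ℤ))
    simp only at p1 p2
    have hu1 : (u' : ℤ) - u = 2 * m * l := by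
      rw [← hn, ← p1, ← p2]
      linear_combination -a * g6 + b * g5
    obtain ⟨hr1, hr2⟩ := Finset.mem_product.1 (Finset.mem_filter.1 hu).1
    obtain ⟨hs1, hs2⟩ := Finset.mem_product.1 (Finset.mem_filter.1 hu').1
    simp only [mem_range] at hr1 hr2 hs1 hs2
    have hub : (u : ℤ) < 2 * m := by exact_mod_cast hr1
    have hub' : (u' : ℤ) < 2 * m := by exact_mod_cast hs1
    have hl : l = 0 := by
      by_contra hne
      rcases lt_or_gt_of_ne hne with h | h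
      · have : l ≤ -1 := by omega
        nlinarith
      · have : 1 ≤ l := by omega
        nlinarith
    subst hl
    have huu : u = u' := by
      have : (u' : ℤ) = u := by linarith
      exact_mod_cast this.symm
    subst huu
    have hee : e = e' := by
      simp only [P] at g5
      have h8 : (e' : ℤ) - e = 2 * (k1 * (u + b * e) + a * k - k1 * (u + b * e')) := by
        linear_combination -g5
      omega
    subst hee
    have hk0 : k = 0 := by
      have : 2 * a * k = 0 := by linarith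
      rcases mul_eq_zero.1 this with h | h
      · exfalso; linarith
      · exact h
    subst hk0
    have : z' = z := by rw [hz']; simp
    subst this
    rfl
  · rintro ⟨⟨x, y⟩, h2, h3, h4⟩
    simp only at h2 h3 h4
    have hv : S21.nm (crs x y) = (4 * m : ℕ) := by
      rw [S21.lagrange, h2, h3, h4]; push_cast; rw [← hn]; ring
    obtain ⟨z0, hz0⟩ := hpr _ hv
    obtain ⟨u0, hu0⟩ : ∃ u0, u0 = a * S21.B y z0 - b * S21.B x z0 := ⟨_, rfl⟩
    obtain ⟨l, hl⟩ : ∃ l, l = u0 / (2 * m) := ⟨_, rfl⟩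
    have hmod := Int.emod_add_mul_ediv u0 (2 * m)
    have h2m : (0 : ℤ) < 2 * m := by linarith
    have hm0 := Int.emod_nonneg u0 h2m.ne'
    have hm1 := Int.emod_lt_of_pos u0 h2m
    obtain ⟨u, hu⟩ : ∃ u : ℕ, (u : ℤ) = u0 % (2 * m) := ⟨_, Int.toNat_of_nonneg hm0⟩
    rw [← hu] at hmod hm1
    rw [← hl] at hmod
    -- first adjustment
    obtain ⟨p1, hp1⟩ : ∃ p1, p1 = S21.B x z0 - l * (2 * b) := ⟨_, rfl⟩
    obtain ⟨q1, hq1⟩ : ∃ q1, q1 = S21.B y z0 - l * (2 * c) := ⟨_, rfl⟩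
    have hpq : a * q1 - b * p1 = u := by
      rw [hp1, hq1]
      linear_combination -hu0 - hmod - 2 * l * hn
    obtain ⟨e, he⟩ : ∃ e : ℕ, (e : ℤ) = p1 % 2 := ⟨_, Int.toNat_of_nonneg (Int.emod_nonneg _ (by norm_num))⟩
    have he2 : e < 2 := by
      have := Int.emod_lt_of_pos p1 (by norm_num : (0 : ℤ) < 2)
      rw [← he] at this
      exact_mod_cast this
    have hPQ' := hPQ ((u : ℤ), (e : ℤ))
    simp only at hPQ'
    obtain ⟨f, hf⟩ : ∃ f, p1 - P ((u : ℤ), (e : ℤ)) = 2 * f := by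
      simp only [P]
      refine ⟨p1 / 2 - k1 * (u + b * e), ?_⟩
      have := Int.emod_add_mul_ediv p1 2
      rw [← he] at this
      linear_combination -this
    have hpq' : a * (q1 - Q ((u : ℤ), (e : ℤ))) = (2 * b) * f := by
      linear_combination hpq - hPQ' + b * hf
    have hab : IsCoprime a (2 * b) := ⟨k2, -k1, by linear_combination hk⟩
    obtain ⟨g, hg⟩ : a ∣ f := hab.dvd_of_dvd_mul_left (Dvd.intro _ hpq')
    have hqm : q1 - Q ((u : ℤ), (e : ℤ)) = 2 * b * g := by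
      apply mul_left_cancel₀ ha.ne'
      rw [hpq', hg]; ring
    set z : V := z0 + (-l) • y + (-g) • x with hz
    have hB1 : S21.B x z = P ((u : ℤ), (e : ℤ)) := by
      rw [hz, B_add, h2, h3]
      rw [hg] at hf
      linear_combination hf - hp1
    have hB2 : S21.B y z = Q ((u : ℤ), (e : ℤ)) := by
      rw [hz, B_add, S21.B_comm y x, h3, h4]
      linear_combination hqm - hq1
    have hdz : dt (crs x y) z = 1 := by
      rw [hz, dt_add, dt_crs_left, dt_crs_right, hz0]; ring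
    have hgr := S21.gram_det x y z
    obtain ⟨r, hr⟩ := even21 z
    rw [h2, h3, h4, hB1, hB2, hdz, hr, d21] at hgr
    have hg' : (4 * (m : ℤ)) * r = W ((u : ℤ), (e : ℤ)) := by
      apply mul_left_cancel₀ (two_ne_zero (α := ℤ))
      have e9 : W ((u : ℤ), (e : ℤ)) = 3 + c * P ((u : ℤ), (e : ℤ)) ^ 2 -
        2 * b * P ((u : ℤ), (e : ℤ)) * Q ((u : ℤ), (e : ℤ)) + a * Q ((u : ℤ), (e : ℤ)) ^ 2 := rfl
      rw [e9, ← hn]
      linear_combination hgr
    have hmem' : (u, e) ∈ Ie m (3 * a) := by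
      rw [Ie, Finset.mem_filter, Finset.mem_product, Finset.mem_range, Finset.mem_range]
      refine ⟨⟨by exact_mod_cast hm1, he2⟩, ?_⟩
      have := (hdiv ((u : ℤ), (e : ℤ))).1 ⟨r, hg'.symm⟩
      push_cast
      exact this
    refine ⟨⟨⟨(u, e), hmem'⟩, ⟨(x, y, z), hdz, h2, h3, h4, hB1, hB2, ?_⟩⟩, rfl⟩
    have h5 := hR (tt (u, e)) (hmem _ hmem')
    have h6 : (4 * (m : ℤ)) * r = 4 * m * R (tt (u, e)) := by rw [h5, hg']
    have h7 := mul_left_cancel₀ (by positivity : (4 * (m : ℤ)) ≠ 0) h6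
    rw [hr, h7]; ring

end Pool.Agent.N693.P21
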