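import Pool.Agent.N693.P21.T2
import Pool.Agent.N877.TF.Amb
import Pool.Agent.N877.P21.Defs

/-!
# The vectors of norm `n`, level 21
-/

set_option autoImplicit false

namespace Pool.Agent.N693.P21

open Finset Pool.Agent.N877.TF

theorem ip_nm (v : V) : Pool.Agent.N877.P21.ip v v = S21.nm v := by
  rw [nm21]; simp only [Pool.Agent.N877.P21.ip]; ring

theorem mem_vec' (n : ℕ) (v : V) : v ∈ Pool.Agent.N877.P21.vec n ↔ S21.nm v = n := by
  rw [Pool.Agent.N877.P21.vec, mem_filter, Fintype.mem_piFinset, ip_nm]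
  refine ⟨fun h => h.2, fun h => ⟨fun i => ?_, h⟩⟩
  rw [nm21] at h
  have e : 3 * v 0 ^ 2 + 2 * v 1 ^ 2 + 2 * v 2 ^ 2 + 2 * (v 1 + v 2) ^ 2 = n := by rw [← h]; ring
  have a0 := sq_nonneg (v 0)
  have a1 := sq_nonneg (v 1)
  have a2 := sq_nonneg (v 2)
  have a3 := sq_nonneg (v 1 + v 2)
  have key : ∀ x : ℤ, x ^ 2 ≤ n → -(n : ℤ) ≤ x ∧ x ≤ n := by
    intro x hx
    constructor <;> nlinarith [sq_nonneg x, sq_nonneg (x + 1), sq_nonneg (x - 1)]
  rw [mem_Icc]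
  fin_cases i
  · exact key _ (by show v 0 ^ 2 ≤ n; linarith)
  · exact key _ (by show v 1 ^ 2 ≤ n; linarith)
  · exact key _ (by show v 2 ^ 2 ≤ n; linarith)

end Pool.Agent.N693.P21
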