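import Pool.Agent.N693.P21.K1
import Pool.Agent.N693.P21.Am

/-!
# Ambiguous forms for even discriminants divisible by three: the condition at two

Adapted from `N970/P225/E2.lean`.
-/

set_option autoImplicit false
set_option linter.style.haveILetI false

namespace Pool.Agent.N693.P21.K

open Finset Pool.Agent.N877.TF
open Pool.Agent.N916.RE (Ie wv jac_all odd_pf eps sq_fac two_sym)

/-- the condition on a factorization away from three -/
def Ck (t r s : ℕ) : Prop :=
  (∀ p ∈ s.primeFactors, p ≠ 2 → p ≠ 3 → jacobiSym (-(3 * ((t : ℤ) * r))) p = 1) ∧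
  (∀ p ∈ r.primeFactors, p ≠ 2 → p ≠ 3 → jacobiSym (-(3 * ((t : ℤ) * s))) p = 1)

/-- the condition on a factorization at three -/
def K3 (t r s : ℕ) : Prop :=
  (3 ∣ s → jacobiSym ((t : ℤ) * ((s / 3 : ℕ) : ℤ)) 3 = 1) ∧
  (3 ∣ r → jacobiSym ((t : ℤ) * ((r / 3 : ℕ) : ℤ)) 3 = 1)

instance (t r s : ℕ) : Decidable (Ck t r s) := by unfold Ck; infer_instance
instance (t r s : ℕ) : Decidable (K3 t r s) := by unfold K3; infer_instance

theorem Ck_symm {t r s : ℕ} : Ck t r s ↔ Ck t s r := by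
  unfold Ck; exact and_comm

theorem K3_symm {t r s : ℕ} : K3 t r s ↔ K3 t s r := by
  unfold K3; exact and_comm

theorem jac_three {M : ℕ} (hM : Odd M) :
    jacobiSym (3 : ℤ) M = (if M % 4 = 1 then 1 else -1) * jacobiSym (M : ℤ) 3 := by
  have h1 : jacobiSym ((3 : ℕ) : ℤ) M = (-1) ^ (3 / 2 * (M / 2)) * jacobiSym (M : ℤ) 3 :=
    jacobiSym.quadratic_reciprocity (by decide) hM
  rw [show (3 : ℤ) = ((3 : ℕ) : ℤ) by norm_num, h1]
  congr 1
  rw [Nat.odd_iff] at hM
  split_ifs with h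
  · refine Even.neg_one_pow ?_
    rw [Nat.even_iff]
    omega
  · refine Odd.neg_one_pow ?_
    rw [Nat.odd_iff]
    omega

theorem jac_pm {M : ℕ} (h : ¬ 3 ∣ M) : jacobiSym (M : ℤ) 3 = 1 ∨ jacobiSym (M : ℤ) 3 = -1 := by
  have : M % 3 = 1 ∨ M % 3 = 2 := by omega
  rcases this with h | h
  · exact Or.inl (jac_3a h)
  · exact Or.inr (jac_3b h)

/-- the general relation for two numbers prime to six -/
theorem core {R S : ℕ} {t1 t2 : ℤ} (hR : Odd R) (hS : Odd S) (qR : Squarefree R)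
    (qS : Squarefree S)
    (h1 : ∀ p ∈ S.primeFactors, jacobiSym (-(3 * (t1 * R))) p = 1)
    (h2 : ∀ p ∈ R.primeFactors, jacobiSym (-(3 * (t2 * S))) p = 1) :
    (jacobiSym (R : ℤ) 3 * jacobiSym (S : ℤ) 3) *
      jacobiSym t1 S * jacobiSym t2 R * (if R % 4 = 3 ∧ S % 4 = 3 then -1 else 1) = 1 := by
  have h := sign_C hR hS qR qS h1 h2
  rw [jac_m3 (hR.mul hS), eps hR hS, Nat.cast_mul,
    jacobiSym.mul_left] at h
  exact h

theorem sq1 {x : ℤ} (h : x = 1 ∨ x = -1) : x * x = 1 := by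
  rcases h with rfl | rfl <;> norm_num

theorem sqf_fac {m r s : ℕ} (hsq : Squarefree m) (h : r * s = m) {l : ℕ} (hl : l.Prime)
    (hr : l ∣ r) : ¬ l ∣ s := by
  intro hs
  obtain ⟨-, -, hcop, -⟩ := sq_fac hsq h
  exact hl.one_lt.ne' (Nat.eq_one_of_dvd_coprimes hcop hr hs)

/-- `m` odd, `3 ∣ s` -/
theorem core1 {m r s : ℕ} (hsq : Squarefree m) (hm : m % 4 = 1) (h : r * s = m) (hs3 : 3 ∣ s)
    {t : ℕ} (hC : Ck t r s) : ∃ S : ℕ, s = 3 * S ∧ Odd r ∧ Odd S ∧ (r * S) % 4 = 3 ∧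
      jacobiSym (S : ℤ) 3 * jacobiSym (t : ℤ) S * jacobiSym (t : ℤ) r *
        (if r % 4 = 1 then 1 else -1) = 1 ∧ ¬ 3 ∣ S ∧ ¬ 3 ∣ r := by
  obtain ⟨q1, q2, -⟩ := sq_fac hsq h
  obtain ⟨S, rfl⟩ := hs3
  have hmo : Odd (r * (3 * S)) := by rw [h, Nat.odd_iff]; omega
  obtain ⟨hr, hs⟩ := Nat.odd_mul.1 hmo
  have hS := (Nat.odd_mul.1 hs).2
  have qS : Squarefree S := q2.squarefree_of_dvd (Dvd.intro_left _ rfl)
  have nS : ¬ 3 ∣ S := by
    rintro ⟨k, rfl⟩
    exact absurd (Nat.isUnit_iff.1 (q2 3 ⟨k, by ring⟩)) (by norm_num)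
  have nr : ¬ 3 ∣ r := fun hr5 => sqf_fac hsq h Nat.prime_three hr5 (Dvd.intro _ rfl)
  have h4 : (r * S) % 4 = 3 := by
    have : r * (3 * S) = 3 * (r * S) := by ring
    omega
  have hne : ∀ p, p ∈ S.primeFactors → p ≠ 3 := by
    rintro p hp rfl
    exact nS (Nat.dvd_of_mem_primeFactors hp)
  have hne' : ∀ p, p ∈ r.primeFactors → p ≠ 3 := by
    rintro p hp rfl
    exact nr (Nat.dvd_of_mem_primeFactors hp)
  have hk := core (t1 := t) (t2 := 3 * t) hr hS q1 qS (fun p hp => by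
      have hp' : p ∈ (3 * S).primeFactors := Nat.mem_primeFactors.2
        ⟨Nat.prime_of_mem_primeFactors hp, (Nat.dvd_of_mem_primeFactors hp).trans
          (Dvd.intro_left _ rfl), q2.ne_zero⟩
      exact hC.1 p hp' (odd_pf hS p hp) (hne p hp)) (fun p hp => by
      have := hC.2 p hp (odd_pf hr p hp) (hne' p hp)
      rw [← this]
      congr 1
      push_cast
      ring)
  refine ⟨S, rfl, hr, hS, h4, ?_, nS, nr⟩
  have hne4 : ¬ (r % 4 = 3 ∧ S % 4 = 3) := by
    rintro ⟨h1, h2⟩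
    rw [Nat.mul_mod, h1, h2] at h4
    norm_num at h4
  rw [if_neg hne4, jacobiSym.mul_left 3, jac_three hr] at hk
  have e := sq1 (jac_pm nr)
  linear_combination hk - (jacobiSym (S : ℤ) 3 * jacobiSym (t : ℤ) S * jacobiSym (t : ℤ) r *
        (if r % 4 = 1 then 1 else -1)) * e

/-- `m` odd, diagonal forms -/
theorem rk1 {m r s : ℕ} (hsq : Squarefree m) (hm : m % 4 = 1) (h5 : 3 ∣ m) (h : r * s = m)
    (hC : Ck 1 r s) : r % 4 = 1 ↔ K3 1 r s := by
  have key : ∀ r s : ℕ, r * s = m → Ck 1 r s → 3 ∣ s → (r % 4 = 1 ↔ K3 1 r s) := by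
    intro r s h hC hs5
    obtain ⟨S, rfl, hr, hS, h4, hk, nS, nr⟩ := core1 hsq hm h hs5 hC
    simp only [Nat.cast_one, jacobiSym.one_left, mul_one] at hk
    unfold K3
    simp only [Nat.cast_one, one_mul]
    rw [Nat.mul_div_cancel_left _ (by norm_num : 0 < 3)]
    constructor
    · intro h3
      refine ⟨fun _ => ?_, fun h' => absurd h' nr⟩
      rw [if_pos h3] at hk
      linarith
    · rintro ⟨h1, -⟩
      have h2 := h1 (Dvd.intro _ rfl)
      rw [h2] at hk
      by_contra hne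
      rw [if_neg hne] at hk
      norm_num at hk
  have h5' : 3 ∣ r * s := by rw [h]; exact h5
  rcases (Nat.Prime.dvd_mul Nat.prime_three).1 h5' with h1 | h1
  · have h2 := key s r (by rw [mul_comm]; exact h) (Ck_symm.1 hC) h1
    rw [K3_symm, ← h2]
    have hmul : (r % 4) * (s % 4) % 4 = 1 := by rw [← Nat.mul_mod, h, hm]
    have hr : r % 4 < 4 := Nat.mod_lt _ (by norm_num)
    have hs : s % 4 < 4 := Nat.mod_lt _ (by norm_num)
    interval_cases r % 4 <;> interval_cases s % 4 <;> simp_all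
  · exact key r s h hC h1

/-- `m` odd, the other ambiguous forms -/
theorem rk2 {m r s : ℕ} (hsq : Squarefree m) (hm : m % 4 = 1) (h5 : 3 ∣ m) (h : r * s = m)
    (hC : Ck 2 r s) : (r + s) % 8 = 2 ↔ K3 2 r s := by
  have key : ∀ r s : ℕ, r * s = m → Ck 2 r s → 3 ∣ s → ((r + s) % 8 = 2 ↔ K3 2 r s) := by
    intro r s h hC hs5
    obtain ⟨S, rfl, hr, hS, h4, hk, nS, nr⟩ := core1 hsq hm h hs5 hC
    have c2 : ((2 : ℕ) : ℤ) = 2 := rfl
    rw [c2, two_sym hr, two_sym hS] at hk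
    unfold K3
    rw [Nat.mul_div_cancel_left _ (by norm_num : 0 < 3), c2, jacobiSym.mul_left]
    have j2 : jacobiSym 2 3 = -1 := by norm_num
    rw [j2]
    have hjS := jac_pm nS
    rw [Nat.odd_iff] at hr hS
    have hr8 : r % 8 = 1 ∨ r % 8 = 3 ∨ r % 8 = 5 ∨ r % 8 = 7 := by omega
    have hs8 : S % 8 = 1 ∨ S % 8 = 3 ∨ S % 8 = 5 ∨ S % 8 = 7 := by omega
    have hr4 : r % 4 = r % 8 % 4 := by omega
    have hs4 : S % 4 = S % 8 % 4 := by omega
    have hmul : (r % 8 % 4) * (S % 8 % 4) % 4 = 3 := by rw [← hr4, ← hs4, ← Nat.mul_mod, h4]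
    have hadd : (r + 3 * S) % 8 = (r % 8 + 3 * (S % 8)) % 8 := by omega
    rw [hadd]
    rw [hr4] at hk
    have hgoal : ((3 ∣ 3 * S → -1 * jacobiSym (S : ℤ) 3 = 1) ∧
        (3 ∣ r → jacobiSym (2 * ((r / 3 : ℕ) : ℤ)) 3 = 1)) ↔ jacobiSym (S : ℤ) 3 = -1 := by
      constructor
      · intro h'
        have := h'.1 (Dvd.intro _ rfl)
        linarith
      · intro h'
        exact ⟨fun _ => by rw [h']; norm_num, fun h'' => absurd h'' nr⟩
    rw [hgoal]
    generalize jacobiSym (S : ℤ) 3 = j at *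
    generalize r % 8 = x at *
    generalize S % 8 = y at *
    rcases hjS with rfl | rfl <;> rcases hr8 with rfl | rfl | rfl | rfl <;>
      rcases hs8 with rfl | rfl | rfl | rfl <;> simp at hk hmul ⊢
  have h5' : 3 ∣ r * s := by rw [h]; exact h5
  rcases (Nat.Prime.dvd_mul Nat.prime_three).1 h5' with h1 | h1
  · have h2 := key s r (by rw [mul_comm]; exact h) (Ck_symm.1 hC) h1
    rw [K3_symm, ← h2, add_comm]
  · exact key r s h hC h1

/-- `m` even -/
theorem rk3 {m r s : ℕ} (hsq : Squarefree m) (hm : m % 4 = 2) (h5 : 3 ∣ m)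
    (h : r * s = m) (hr : Odd r) (hC : Ck 1 r s) :
    (r % 8 = 5 ∨ r % 8 = (5 + 5 * m) % 8) ↔ K3 1 r s := by
  obtain ⟨q1, q2, -, -, hs0⟩ := sq_fac hsq h
  obtain ⟨s', hs'⟩ : ∃ s', s = 2 * s' := by
    have : Even (r * s) := by rw [h, Nat.even_iff]; omega
    rcases Nat.even_mul.1 this with h1 | h1
    · exact absurd h1 (Nat.not_even_iff_odd.2 hr)
    · obtain ⟨k, hk⟩ := h1
      exact ⟨k, by omega⟩
  have hM : 2 * (r * s') = m := by rw [← h, hs']; ring
  have hodd : Odd (r * s') := by rw [Nat.odd_iff]; omega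
  have hso : Odd s' := (Nat.odd_mul.1 hodd).2
  have q3 : Squarefree s' := q2.squarefree_of_dvd ⟨2, by rw [hs']; ring⟩
  have j2 : jacobiSym 2 3 = -1 := by norm_num
  have hsp : ∀ p ∈ s'.primeFactors, p ∈ s.primeFactors := fun p hp =>
    Nat.mem_primeFactors.2 ⟨Nat.prime_of_mem_primeFactors hp,
      (Nat.dvd_of_mem_primeFactors hp).trans ⟨2, by rw [hs']; ring⟩, hs0.ne'⟩
  have h5' : 3 ∣ r * s := by rw [h]; exact h5
  rcases (Nat.Prime.dvd_mul Nat.prime_three).1 h5' with h1 | h1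
  · -- `3 ∣ r`
    have ns : ¬ 3 ∣ s := sqf_fac hsq h Nat.prime_three h1
    obtain ⟨R, rfl⟩ := h1
    have hR := (Nat.odd_mul.1 hr).2
    have qR : Squarefree R := q1.squarefree_of_dvd (Dvd.intro_left _ rfl)
    have nR : ¬ 3 ∣ R := by
      rintro ⟨k, rfl⟩
      exact absurd (Nat.isUnit_iff.1 (q1 3 ⟨k, by ring⟩)) (by norm_num)
    have ns' : ¬ 3 ∣ s' := fun h' => ns (by rw [hs']; exact Dvd.dvd.mul_left h' _)
    have hk := core (t1 := 3) (t2 := 2) hR hso qR q3 (fun p hp => by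
        have hne : p ≠ 3 := by
          rintro rfl
          exact ns' (Nat.dvd_of_mem_primeFactors hp)
        have := hC.1 p (hsp p hp) (odd_pf hso p hp) hne
        rw [← this]
        congr 1
        push_cast
        ring) (fun p hp => by
        have hne : p ≠ 3 := by
          rintro rfl
          exact nR (Nat.dvd_of_mem_primeFactors hp)
        have hp' : p ∈ (3 * R).primeFactors := Nat.mem_primeFactors.2
          ⟨Nat.prime_of_mem_primeFactors hp, (Nat.dvd_of_mem_primeFactors hp).trans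
            (Dvd.intro_left _ rfl), q1.ne_zero⟩
        have := hC.2 p hp' (odd_pf hR p hp) hne
        rw [← this, hs']
        congr 1
        push_cast
        ring)
    rw [jac_three hso, two_sym hR] at hk
    have e := sq1 (jac_pm ns')
    have hk' : (if s' % 4 = 1 then (1 : ℤ) else -1) * jacobiSym (R : ℤ) 3 *
        (if R % 8 = 1 ∨ R % 8 = 7 then 1 else -1) * (if R % 4 = 3 ∧ s' % 4 = 3 then -1 else 1) =
        1 := by
      linear_combination hk - ((if s' % 4 = 1 then (1 : ℤ) else -1) * jacobiSym (R : ℤ) 3 *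
        (if R % 8 = 1 ∨ R % 8 = 7 then 1 else -1) *
        (if R % 4 = 3 ∧ s' % 4 = 3 then -1 else 1)) * e
    have hgoal : K3 1 (3 * R) s ↔ jacobiSym (R : ℤ) 3 = 1 := by
      unfold K3
      rw [Nat.mul_div_cancel_left _ (by norm_num : 0 < 3)]
      simp only [Nat.cast_one, one_mul]
      exact ⟨fun h' => h'.2 (Dvd.intro _ rfl), fun h' => ⟨fun h'' => absurd h'' ns, fun _ => h'⟩⟩
    rw [hgoal]
    have hjR := jac_pm nR
    rw [Nat.odd_iff] at hR hso
    have hr8 : R % 8 = 1 ∨ R % 8 = 3 ∨ R % 8 = 5 ∨ R % 8 = 7 := by omega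
    have hs8 : s' % 4 = 1 ∨ s' % 4 = 3 := by omega
    have hr4 : R % 4 = R % 8 % 4 := by omega
    have hmul : R * s' % 4 = (R % 8 % 4) * (s' % 4) % 4 := by rw [Nat.mul_mod, hr4]
    have hm8 : (5 + 5 * m) % 8 = (5 + 30 * (R * s' % 4)) % 8 := by
      have : m = 6 * (R * s') := by rw [← hM]; ring
      omega
    have h5R : 3 * R % 8 = 3 * (R % 8) % 8 := by omega
    rw [hm8, h5R]
    rw [hmul]
    rw [hr4] at hk'
    generalize jacobiSym (R : ℤ) 3 = j at *
    generalize R % 8 = x at *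
    generalize s' % 4 = y at *
    rcases hjR with rfl | rfl <;> rcases hr8 with rfl | rfl | rfl | rfl <;>
      rcases hs8 with rfl | rfl <;> simp at hk' ⊢
  · -- `3 ∣ s`
    have nr : ¬ 3 ∣ r := fun h' => sqf_fac hsq h Nat.prime_three h' h1
    obtain ⟨S, hS⟩ : 3 ∣ s' := by
      rw [hs'] at h1
      rcases (Nat.Prime.dvd_mul Nat.prime_three).1 h1 with h' | h'
      · omega
      · exact h'
    have hSo : Odd S := by
      rw [hS] at hso
      exact (Nat.odd_mul.1 hso).2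
    have qS : Squarefree S := q3.squarefree_of_dvd ⟨3, by rw [hS]; ring⟩
    have nS : ¬ 3 ∣ S := by
      rintro ⟨k, rfl⟩
      exact absurd (Nat.isUnit_iff.1 (q3 3 ⟨k, by rw [hS]; ring⟩)) (by norm_num)
    have hk := core (t1 := 1) (t2 := 6) hr hSo q1 qS (fun p hp => by
        have hp' : p ∈ s'.primeFactors := Nat.mem_primeFactors.2
          ⟨Nat.prime_of_mem_primeFactors hp, (Nat.dvd_of_mem_primeFactors hp).trans
            ⟨3, by rw [hS]; ring⟩, q3.ne_zero⟩
        have hne : p ≠ 3 := by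
          rintro rfl
          exact nS (Nat.dvd_of_mem_primeFactors hp)
        exact_mod_cast hC.1 p (hsp p hp') (odd_pf hSo p hp) hne) (fun p hp => by
        have hne : p ≠ 3 := by
          rintro rfl
          exact nr (Nat.dvd_of_mem_primeFactors hp)
        have := hC.2 p hp (odd_pf hr p hp) hne
        rw [← this, hs', hS]
        congr 1
        push_cast
        ring)
    have e6 : (6 : ℤ) = 2 * 3 := by norm_num
    rw [e6, jacobiSym.mul_left, jac_three hr, two_sym hr, jacobiSym.one_left] at hk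
    have e := sq1 (jac_pm nr)
    have hk' : (if r % 4 = 1 then (1 : ℤ) else -1) * jacobiSym (S : ℤ) 3 *
        (if r % 8 = 1 ∨ r % 8 = 7 then 1 else -1) * (if r % 4 = 3 ∧ S % 4 = 3 then -1 else 1) =
        1 := by
      linear_combination hk - ((if r % 4 = 1 then (1 : ℤ) else -1) * jacobiSym (S : ℤ) 3 *
        (if r % 8 = 1 ∨ r % 8 = 7 then 1 else -1) * (if r % 4 = 3 ∧ S % 4 = 3 then -1 else 1)) * e
    have hgoal : K3 1 r s ↔ jacobiSym (S : ℤ) 3 = -1 := by
      unfold K3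
      have e1 : s / 3 = 2 * S := by omega
      rw [e1]
      simp only [Nat.cast_one, one_mul]
      rw [Nat.cast_mul, Nat.cast_ofNat, jacobiSym.mul_left, j2]
      constructor
      · intro h'
        have := h'.1 h1
        linarith
      · intro h'
        exact ⟨fun _ => by rw [h']; norm_num, fun h'' => absurd h'' nr⟩
    rw [hgoal]
    have hjS := jac_pm nS
    rw [Nat.odd_iff] at hr hSo
    have hr8 : r % 8 = 1 ∨ r % 8 = 3 ∨ r % 8 = 5 ∨ r % 8 = 7 := by omega
    have hs8 : S % 4 = 1 ∨ S % 4 = 3 := by omega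
    have hr4 : r % 4 = r % 8 % 4 := by omega
    have hmul : r * S % 4 = (r % 8 % 4) * (S % 4) % 4 := by rw [Nat.mul_mod, hr4]
    have hm8 : (5 + 5 * m) % 8 = (5 + 30 * (r * S % 4)) % 8 := by
      have : m = 6 * (r * S) := by rw [← hM, hS]; ring
      omega
    rw [hm8]
    rw [hmul]
    rw [hr4] at hk'
    generalize jacobiSym (S : ℤ) 3 = j at *
    generalize r % 8 = x at *
    generalize S % 4 = y at *
    rcases hjS with rfl | rfl <;> rcases hr8 with rfl | rfl | rfl | rfl <;>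
      rcases hs8 with rfl | rfl <;> simp at hk' ⊢

end Pool.Agent.N693.P21.K
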