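import Pool.Agent.N877.TF.Uniq

/-!
# The ternary lattice of discriminant `6`: class number one (adapted from `N877/P15/Tors.lean`)

`F = [[2,0,0],[0,2,-1],[0,-1,2]]`, whose adjugate is `[[3,0,0],[0,4,2],[0,2,4]]`.
-/

set_option autoImplicit false

namespace Pool.Agent.N693.P21

open Finset Matrix Pool.Agent.N877.TF

/-- the coefficients of the lattice of discriminant `6` -/
def S21 : Co := ⟨2, 2, 2, 0, 0, -1⟩

theorem B21 (v w : V) : S21.B v w = 2 * (v 0 * w 0) + 2 * (v 1 * w 1) + 2 * (v 2 * w 2) -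
    (v 1 * w 2 + v 2 * w 1) := by
  simp only [S21, Co.B]; ring

theorem nm21 (v : V) : S21.nm v = 3 * v 0 ^ 2 + 4 * v 1 ^ 2 + 4 * v 2 ^ 2 +
    4 * (v 1 * v 2) := by
  simp only [S21, Co.nm]; ring

theorem d21 : S21.d = 6 := by simp only [S21, Co.d]; norm_num

theorem even21 (v : V) : Even (S21.B v v) := by
  rw [B21]
  exact ⟨v 0 ^ 2 + v 1 ^ 2 + v 2 ^ 2 - v 1 * v 2, by ring⟩

theorem pos21 : S21.Pos := by
  intro v hv
  rw [B21]
  have h : 2 * (v 0 * v 0) + 2 * (v 1 * v 1) + 2 * (v 2 * v 2) - (v 1 * v 2 + v 2 * v 1) =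
      2 * v 0 ^ 2 + v 1 ^ 2 + v 2 ^ 2 + (v 1 - v 2) ^ 2 := by ring
  rw [h]
  by_contra hcon
  push Not at hcon
  have h0 := sq_nonneg (v 0)
  have h1 := sq_nonneg (v 1)
  have h2 := sq_nonneg (v 2)
  have h3 := sq_nonneg (v 1 - v 2)
  have e0 : v 0 = 0 := pow_eq_zero_iff (two_ne_zero) |>.1 (by linarith)
  have e1 : v 1 = 0 := pow_eq_zero_iff (two_ne_zero) |>.1 (by linarith)
  have e2 : v 2 = 0 := pow_eq_zero_iff (two_ne_zero) |>.1 (by linarith)
  exact hv (ext3 e0 e1 e2)

/-- vectors with a given Gram matrix -/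
def Rep (a b c p q r : ℤ) : Prop := ∃ x y z : V, S21.B x x = 2 * a ∧ S21.B x y = b ∧
  S21.B y y = 2 * c ∧ S21.B x z = p ∧ S21.B y z = q ∧ S21.B z z = 2 * r

theorem B_add_left (x y z : V) (t : ℤ) : S21.B (x + t • y) z = S21.B x z + t * S21.B y z := by
  simp only [Co.B, Pi.add_apply, Pi.smul_apply, smul_eq_mul]; ring

theorem B_add_right (x y z : V) (t : ℤ) : S21.B z (x + t • y) = S21.B z x + t * S21.B z y := by
  simp only [Co.B, Pi.add_apply, Pi.smul_apply, smul_eq_mul]; ring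

theorem Rep.shear12 {a b c p q r : ℤ} (t : ℤ)
    (h : Rep a (b - t * (2 * a)) (c - t * b + t ^ 2 * a) p (q - t * p) r) : Rep a b c p q r := by
  obtain ⟨x, y, z, h1, h2, h3, h4, h5, h6⟩ := h
  refine ⟨x, y + t • x, z, h1, ?_, ?_, h4, ?_, h6⟩
  · rw [B_add_right, h1, h2]; ring
  · rw [B_add_right, B_add_left, B_add_left, S21.B_comm y x, h1, h2, h3]; ring
  · rw [B_add_left, h4, h5]; ring

theorem Rep.shear13 {a b c p q r : ℤ} (t : ℤ)
    (h : Rep a b c (p - t * (2 * a)) (q - t * b) (r - t * p + t ^ 2 * a)) : Rep a b c p q r := by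
  obtain ⟨x, y, z, h1, h2, h3, h4, h5, h6⟩ := h
  refine ⟨x, y, z + t • x, h1, h2, h3, ?_, ?_, ?_⟩
  · rw [B_add_right, h1, h4]; ring
  · rw [B_add_right, S21.B_comm y x, h2, h5]; ring
  · rw [B_add_right, B_add_left, B_add_left, S21.B_comm z x, h1, h4, h6]; ring

theorem Rep.shear23 {a b c p q r : ℤ} (s : ℤ)
    (h : Rep a b c (p - s * b) (q - s * (2 * c)) (r - s * q + s ^ 2 * c)) : Rep a b c p q r := by
  obtain ⟨x, y, z, h1, h2, h3, h4, h5, h6⟩ := h
  refine ⟨x, y, z + s • y, h1, h2, h3, ?_, ?_, ?_⟩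
  · rw [B_add_right, h2, h4]; ring
  · rw [B_add_right, h3, h5]; ring
  · rw [B_add_right, B_add_left, B_add_left, S21.B_comm z y, h3, h5, h6]; ring

theorem Rep.swap12 {a b c p q r : ℤ} (h : Rep c b a q p r) : Rep a b c p q r := by
  obtain ⟨x, y, z, h1, h2, h3, h4, h5, h6⟩ := h
  exact ⟨y, x, z, h3, by rw [S21.B_comm, h2], h1, h5, h4, h6⟩

theorem Rep.swap23 {a b c p q r : ℤ} (h : Rep a p r b q c) : Rep a b c p q r := by
  obtain ⟨x, y, z, h1, h2, h3, h4, h5, h6⟩ := h
  exact ⟨x, z, y, h1, h4, h6, h2, by rw [S21.B_comm, h5], h3⟩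

/-- rounding -/
theorem exists_round (u v : ℤ) (hv : 0 < v) : ∃ t : ℤ, -v ≤ 2 * (u - t * v) ∧
    2 * (u - t * v) ≤ v := by
  have h := Int.emod_add_mul_ediv (2 * u + v) (2 * v)
  have h2 := Int.emod_lt_of_pos (2 * u + v) (by linarith : 0 < 2 * v)
  have h1 := Int.emod_nonneg (2 * u + v) (by linarith : 2 * v ≠ 0)
  generalize (2 * u + v) % (2 * v) = r at *
  generalize (2 * u + v) / (2 * v) = q at *
  exact ⟨q, by linarith, by linarith⟩

theorem rep_of (N : ℕ) : ∀ a b c p q r : ℤ, 0 < a → 0 < 4 * a * c - b ^ 2 →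
    4 * a * c * r + b * p * q - a * q ^ 2 - c * p ^ 2 - r * b ^ 2 = 3 →
    a + (4 * a * c - b ^ 2) ≤ N → Rep a b c p q r := by
  induction N with
  | zero =>
    intro a b c p q r ha hD _ hN
    exfalso
    push_cast at hN
    linarith
  | succ N ih =>
    intro a b c p q r ha hD hdet hN
    push_cast at hN
    obtain ⟨t, ht1, ht2⟩ := exists_round b (2 * a) (by linarith)
    apply Rep.shear12 t
    obtain ⟨b', hb'⟩ : ∃ b', b' = b - t * (2 * a) := ⟨_, rfl⟩
    obtain ⟨c', hc'⟩ : ∃ c', c' = c - t * b + t ^ 2 * a := ⟨_, rfl⟩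
    obtain ⟨q', hq'⟩ : ∃ q', q' = q - t * p := ⟨_, rfl⟩
    rw [← hb', ← hc', ← hq']
    rw [← hb'] at ht1 ht2
    have hD' : 4 * a * c' - b' ^ 2 = 4 * a * c - b ^ 2 := by rw [hc', hb']; ring
    have hdet' : 4 * a * c' * r + b' * p * q' - a * q' ^ 2 - c' * p ^ 2 - r * b' ^ 2 = 3 := by
      rw [← hdet, hc', hb', hq']; ring
    rw [← hD'] at hD hN
    have hb2 : b' ^ 2 ≤ a ^ 2 := by nlinarith
    have hc'0 : 0 < c' := by
      by_contra hcon
      push Not at hcon
      nlinarith [sq_nonneg b']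
    by_cases hlt : c' < a
    · apply Rep.swap12
      apply ih c' b' a q' p r hc'0 (by linarith) (by linarith)
      have : 4 * c' * a - b' ^ 2 = 4 * a * c' - b' ^ 2 := by ring
      rw [this]
      linarith
    push Not at hlt
    obtain ⟨D, hDD⟩ : ∃ D, D = 4 * a * c' - b' ^ 2 := ⟨_, rfl⟩
    rw [← hDD] at hD hN
    have h34 : 3 * a ^ 2 ≤ D := by nlinarith
    obtain ⟨s, hs1, hs2⟩ := exists_round (2 * a * q' - b' * p) D hD
    apply Rep.shear23 s
    obtain ⟨p2, hp2⟩ : ∃ p2, p2 = p - s * b' := ⟨_, rfl⟩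
    obtain ⟨q2, hq2⟩ : ∃ q2, q2 = q' - s * (2 * c') := ⟨_, rfl⟩
    obtain ⟨r2, hr2⟩ : ∃ r2, r2 = r - s * q' + s ^ 2 * c' := ⟨_, rfl⟩
    rw [← hp2, ← hq2, ← hr2]
    have hdet2 : 4 * a * c' * r2 + b' * p2 * q2 - a * q2 ^ 2 - c' * p2 ^ 2 - r2 * b' ^ 2 = 3 := by
      rw [← hdet', hp2, hq2, hr2]; ring
    obtain ⟨K, hK⟩ : ∃ K, K = 2 * a * q2 - b' * p2 := ⟨_, rfl⟩
    have hK2 : K = 2 * a * q' - b' * p - s * D := by rw [hK, hq2, hp2, hDD]; ring
    rw [← hK2] at hs1 hs2
    have hKK : 4 * K ^ 2 ≤ D ^ 2 := by nlinarith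
    have hid : D * (4 * a * r2 - p2 ^ 2) = K ^ 2 + 12 * a := by
      have : K ^ 2 + 4 * a * (4 * a * c' * r2 + b' * p2 * q2 - a * q2 ^ 2 - c' * p2 ^ 2 -
          r2 * b' ^ 2) = D * (4 * a * r2 - p2 ^ 2) := by
        rw [hK, hDD]; ring
      rw [← this, hdet2]; ring
    have hE : 0 < 4 * a * r2 - p2 ^ 2 := by
      by_contra hcon
      push Not at hcon
      nlinarith [sq_nonneg K]
    by_cases hlt2 : 4 * a * r2 - p2 ^ 2 < D
    · apply Rep.swap23
      apply ih a p2 r2 b' q2 c' ha hE (by linarith)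
      linarith
    push Not at hlt2
    have h36 : D * D ≤ K ^ 2 + 12 * a := by
      rw [← hid]
      exact mul_le_mul_of_nonneg_left hlt2 hD.le
    have h35 : 3 * (D * D) ≤ 48 * a := by
      rw [pow_two D] at hKK
      linarith
    have ha1 : a = 1 := by
      by_contra hne
      have ha2 : 2 ≤ a := by omega
      have h37 : 2 * a ≤ a ^ 2 := by
        rw [pow_two]
        exact mul_le_mul_of_nonneg_right ha2 ha.le
      have h38 : 6 * a ≤ D := by linarith
      have h39 : (6 * a) * (6 * a) ≤ D * D := mul_self_le_mul_self (by linarith) h38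
      nlinarith
    subst ha1
    have hD4 : D ≤ 4 := by
      by_contra hne
      have h2 : 5 ≤ D := by omega
      nlinarith
    have hbb : b' = -1 ∨ b' = 0 ∨ b' = 1 := by
      have h1 : -1 ≤ b' := by linarith
      have h2 : b' ≤ 1 := by linarith
      omega
    have hc1 : c' = 1 := by
      rcases hbb with rfl | rfl | rfl <;> · norm_num at hDD; omega
    subst hc1
    -- the forms
    have fin1 : ∀ b : ℤ, b = 1 ∨ b = -1 → Rep 1 b 1 0 0 1 := by
      rintro b (rfl | rfl)
      · exact ⟨![0, 1, 0], ![0, 0, -1], ![1, 0, 0], by simp [B21], by simp [B21],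
          by simp [B21], by simp [B21], by simp [B21], by simp [B21]⟩
      · exact ⟨![0, 1, 0], ![0, 0, 1], ![1, 0, 0], by simp [B21], by simp [B21],
          by simp [B21], by simp [B21], by simp [B21], by simp [B21]⟩
    have fin2 : Rep 1 0 1 1 0 1 :=
      ⟨![0, 1, 0], ![1, 0, 0], ![0, 0, -1], by simp [B21], by simp [B21],
          by simp [B21], by simp [B21], by simp [B21], by simp [B21]⟩
    have fin3 : ∀ q : ℤ, q = 1 ∨ q = -1 → Rep 1 0 1 0 q 1 := by
      rintro b (rfl | rfl)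
      · exact ⟨![1, 0, 0], ![0, 1, 0], ![0, 0, -1], by simp [B21], by simp [B21],
          by simp [B21], by simp [B21], by simp [B21], by simp [B21]⟩
      · exact ⟨![1, 0, 0], ![0, 1, 0], ![0, 0, 1], by simp [B21], by simp [B21],
          by simp [B21], by simp [B21], by simp [B21], by simp [B21]⟩
    -- `D = 3`
    have last : D = 3 → (b' = 1 ∨ b' = -1) → Rep 1 b' 1 p2 q2 r2 := by
      intro hD3 hb1
      rw [hD3] at hid hs1 hs2
      have hK1 : K = -1 ∨ K = 0 ∨ K = 1 := by omega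
      have hK0 : K = 0 := by
        rcases hK1 with h | h | h
        · exfalso
          rw [h] at hid
          omega
        · exact h
        · exfalso
          rw [h] at hid
          omega
      rw [hK0] at hid
      have h7 : 4 * r2 - p2 ^ 2 = 4 := by linarith
      obtain ⟨k, hk⟩ : ∃ k, p2 = 2 * k := by
        rcases Int.even_or_odd p2 with ⟨k, hk⟩ | ⟨k, hk⟩
        · exact ⟨k, by rw [hk]; ring⟩
        · exfalso
          have : p2 ^ 2 = 4 * (k ^ 2 + k) + 1 := by rw [hk]; ring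
          omega
      apply Rep.shear13 k
      have e1 : p2 - k * (2 * 1) = 0 := by rw [hk]; ring
      have e2 : r2 - k * p2 + k ^ 2 * 1 = 1 := by
        have : 4 * (r2 - k * p2 + k ^ 2 * 1) = 4 := by
          rw [hk] at h7 ⊢
          linear_combination h7
        omega
      have e3 : q2 - k * b' = 0 := by
        have : 2 * (q2 - k * b') = 0 := by
          rw [← hK0, hK, hk]; ring
        omega
      rw [e1, e2, e3]
      exact fin1 b' hb1
    rcases hbb with h | h | h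
    · exact last (by rw [hDD, h]; norm_num) (Or.inr h)
    · subst h
      have hD4 : D = 4 := by rw [hDD]; norm_num
      rw [hD4] at hid hs1 hs2
      have hK3 : K = 2 * q2 := by rw [hK]; ring
      have hq2b : q2 = -1 ∨ q2 = 0 ∨ q2 = 1 := by omega
      rw [hK3] at hid
      by_cases hq0 : q2 = 0
      · subst hq0
        have h7 : 4 * r2 - p2 ^ 2 = 3 := by linarith
        obtain ⟨k, hk⟩ : ∃ k, p2 = 2 * k + 1 := by
          rcases Int.even_or_odd p2 with ⟨k, hk⟩ | ⟨k, hk⟩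
          · exfalso
            have : p2 ^ 2 = 4 * k ^ 2 := by rw [hk]; ring
            omega
          · exact ⟨k, hk⟩
        apply Rep.shear13 k
        have e1 : p2 - k * (2 * 1) = 1 := by rw [hk]; ring
        have e2 : r2 - k * p2 + k ^ 2 * 1 = 1 := by
          have : 4 * (r2 - k * p2 + k ^ 2 * 1) = 4 := by
            rw [hk] at h7 ⊢
            linear_combination h7
          omega
        have e3 : (0 : ℤ) - k * 0 = 0 := by ring
        rw [e1, e2, e3]
        exact fin2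
      · have hq1 : q2 = 1 ∨ q2 = -1 := by omega
        have hqq : q2 ^ 2 = 1 := by rcases hq1 with h | h <;> rw [h] <;> norm_num
        have h7 : 4 * r2 - p2 ^ 2 = 4 := by linarith
        obtain ⟨k, hk⟩ : ∃ k, p2 = 2 * k := by
          rcases Int.even_or_odd p2 with ⟨k, hk⟩ | ⟨k, hk⟩
          · exact ⟨k, by rw [hk]; ring⟩
          · exfalso
            have : p2 ^ 2 = 4 * (k ^ 2 + k) + 1 := by rw [hk]; ring
            omega
        apply Rep.shear13 k
        have e1 : p2 - k * (2 * 1) = 0 := by rw [hk]; ring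
        have e2 : r2 - k * p2 + k ^ 2 * 1 = 1 := by
          have : 4 * (r2 - k * p2 + k ^ 2 * 1) = 4 := by
            rw [hk] at h7 ⊢
            linear_combination h7
          omega
        have e3 : q2 - k * 0 = q2 := by ring
        rw [e1, e2, e3]
        exact fin3 q2 hq1
    · exact last (by rw [hDD, h]; norm_num) (Or.inl h)

end Pool.Agent.N693.P21
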